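import Pool.Agent.Helper55.KV.Stop

set_option autoImplicit false

/-!
# The arithmetic of the chain
-/

namespace Helper55.KV

theorem arith1 {J0 J1 A0 A1 r g μ a b : ℤ} (ha : 0 < a) (h0 : J0 * μ = a * A0 - r)
    (h1 : J1 * μ = a * A1 + g) (hJ0 : 1 ≤ J0) (hJ : J0 < J1) (hr : 1 ≤ r) (hg1 : 1 - r ≤ g)
    (hg2 : g ≤ b - r) (hμ : (J1 + 1) * b - g ≤ μ) (hA0 : A0 ≤ J0) (hA1 : A1 ≤ J1)
    (hA0' : 1 ≤ A0) (hμ0 : 0 < μ) (hrb : r ≤ b) : False := by
  have hκ : a * (J1 * A0 - J0 * A1) = J1 * r + J0 * g := by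
    linear_combination J0 * h1 - J1 * h0
  have hκ2 : μ * (J1 * A0 - J0 * A1) = A1 * r + A0 * g := by
    linear_combination A0 * h1 - A1 * h0
  have hpos : 0 < J1 * r + J0 * g := by nlinarith
  rw [← hκ] at hpos
  have hκ1 : 0 < J1 * A0 - J0 * A1 := (mul_pos_iff_of_pos_left ha).1 hpos
  have h2 : μ * 1 ≤ μ * (J1 * A0 - J0 * A1) := mul_le_mul_of_nonneg_left hκ1 hμ0.le
  rw [hκ2] at h2
  rcases lt_or_ge g 0 with h3 | h3
  · have h4 : A1 * r ≤ J1 * r := mul_le_mul_of_nonneg_right hA1 (by omega)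
    have h5 : A0 * g ≤ 0 := by nlinarith
    have h6 : J1 * r ≤ J1 * b := mul_le_mul_of_nonneg_left hrb (by omega)
    have h7 : (J1 + 1) * b = J1 * b + b := by ring
    linarith
  · have h4 : A1 * r ≤ J1 * r := mul_le_mul_of_nonneg_right hA1 (by omega)
    have h5 : A0 * g ≤ J1 * g := mul_le_mul_of_nonneg_right (by omega) h3
    nlinarith

theorem arith2 {p q l a b K J : ℕ} (hb : 1 ≤ b) (hl : l < p) (hpq : p < q) (hql : q < p + l)
    (hKb : b + 1 ≤ K) (hKa : K < a) (hJ : 1 ≤ J) (hvJ : vs p q l J + 1 + q = 2 * p)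
    (hJμ : J * (a + b - K) = a * (Fs p q l J + 1))
    (hi : ∀ i : ℕ, 1 ≤ i → i < J → ∃ d : ℕ, d + i * (a + b - K) = a + 1 + a * Fs p q l i ∧
      b + 1 ≤ d ∧ d ≤ a ∧ vs p q l i < p) : False := by
  have hl1 : q - l ≤ vs p q l 0 := by
    rw [vs_zero]
    omega
  have hF1 : Fs p q l 1 = 0 := Fs_S hl1
  have hle := Fs_le (p := p) (q := q) (l := l) (by omega) (J - 1)
  have hJ1 : J - 1 + 1 = J := by omega
  rw [hJ1] at hle
  have hvs := vs_eq (p := p) (q := q) (l := l) (by omega) (by omega) J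
  have hvsi := fun i => vs_eq (p := p) (q := q) (l := l) (by omega) (by omega) i
  -- the case `J = 1`
  rcases Nat.lt_or_ge 1 J with hJ2 | hJ2
  swap
  · have : J = 1 := by omega
    subst this
    rw [hF1] at hJμ
    omega
  set A := Fs p q l J + 1 with hA
  have hAq : J * (q - l) + p = q * A := by
    rw [hA, Nat.mul_succ]
    omega
  have key : ∀ i : ℕ, 1 ≤ i → i < J → ∃ y : ℕ, i * A = J * Fs p q l i + y ∧ 0 < y ∧ y < J ∧
      i * p ≤ q * y := by
    intro i h1 h2
    obtain ⟨d, hd, hd1, hd2, hv⟩ := hi i h1 h2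
    have h3 := hvsi i
    generalize vs p q l i = v at *
    generalize hF : Fs p q l i = F at *
    generalize hμ : a + b - K = μ at *
    generalize hL : q - l = L at *
    have e1 : (J : ℤ) * L + p = q * A := by exact_mod_cast hAq
    have e2 : (v : ℤ) + i * L + 1 = p + q * F := by exact_mod_cast h3
    have e3 : (J : ℤ) * μ = a * A := by exact_mod_cast hJμ
    have e4 : (d : ℤ) + i * μ = a + 1 + a * F := by exact_mod_cast hd
    have e5 : (a : ℤ) * ((i : ℤ) * A - J * F) = J * (a + 1 - d) := by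
      linear_combination (J : ℤ) * e4 - (i : ℤ) * e3
    have e6 : (q : ℤ) * ((i : ℤ) * A - J * F) = J * (p - 1 - v) + i * p := by
      linear_combination (J : ℤ) * e2 - (i : ℤ) * e1
    have e7 : 0 < (i : ℤ) * A - J * F := by
      have h4 : (0 : ℤ) < a * ((i : ℤ) * A - J * F) := by
        rw [e5]
        apply mul_pos <;> omega
      exact (mul_pos_iff_of_pos_left (by omega)).1 h4
    have e8 : (i : ℤ) * A - J * F < J := by
      have h4 : (a : ℤ) * ((i : ℤ) * A - J * F) < a * J := by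
        rw [e5]
        have h5 : (J : ℤ) * (a + 1 - d) < J * a := by
          apply mul_lt_mul_of_pos_left <;> omega
        linarith
      exact lt_of_mul_lt_mul_left h4 (by omega)
    have e9 : (i : ℤ) * p ≤ q * ((i : ℤ) * A - J * F) := by
      rw [e6]
      have h5 : (0 : ℤ) ≤ J * (p - 1 - v) := by
        apply mul_nonneg <;> omega
      linarith
    obtain ⟨y, hy⟩ := Int.eq_ofNat_of_zero_le e7.le
    rw [hy] at e7 e8 e9
    refine ⟨y, ?_, by exact_mod_cast e7, by exact_mod_cast e8, by exact_mod_cast e9⟩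
    have : (i : ℤ) * A = J * F + y := by linarith
    exact_mod_cast this
  -- the numbers `A` and `J` are coprime
  have hcop : A.Coprime J := by
    by_contra hcon
    have hg1 : A.gcd J ≠ 1 := hcon
    have hg0 : 0 < A.gcd J := Nat.gcd_pos_of_pos_right _ (by omega)
    obtain ⟨x, hx⟩ := Nat.gcd_dvd_right A J
    obtain ⟨w, hw⟩ := Nat.gcd_dvd_left A J
    generalize A.gcd J = g at *
    have hx0 : 0 < x := by
      rcases Nat.eq_zero_or_pos x with h1 | h1
      · subst h1
        omega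
      · exact h1
    have hxJ : x < J := by
      have h1 : 2 * x ≤ g * x := Nat.mul_le_mul_right x (by omega)
      omega
    obtain ⟨y, hy1, hy2, hy3, _⟩ := key x hx0 hxJ
    have h1 : x * A = J * w := by
      calc x * A = x * (g * w) := by rw [← hw]
        _ = (g * x) * w := by ring
        _ = J * w := by rw [← hx]
    rw [h1] at hy1
    have h2 : J ∣ y := (Nat.dvd_add_right (Dvd.intro _ rfl)).1 (hy1 ▸ Dvd.intro _ rfl)
    have := Nat.le_of_dvd hy2 h2
    omega
  obtain ⟨i, hiJ, hi1⟩ := Nat.exists_mul_mod_eq_one_of_coprime hcop hJ2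
  have hi0 : 1 ≤ i := by
    rcases Nat.eq_zero_or_pos i with h1 | h1
    · subst h1
      rw [Nat.mul_zero, Nat.zero_mod] at hi1
      omega
    · exact h1
  obtain ⟨y, hy1, hy2, hy3, hy4⟩ := key i hi0 hiJ
  have hy : y = 1 := by
    rw [mul_comm A i, hy1, Nat.mul_add_mod, Nat.mod_eq_of_lt hy3] at hi1
    exact hi1
  subst hy
  have hi2 : i = 1 := by
    by_contra hcon
    have h1 : 2 * p ≤ i * p := Nat.mul_le_mul_right p (by omega)
    omega
  subst hi2
  rw [hF1] at hy1
  have hA1 : A = 1 := by omega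
  rw [hA1] at hAq
  have h1 : 1 * (q - l) ≤ J * (q - l) := Nat.mul_le_mul_right _ hJ
  omega

open Helper11.N1 Helper55.KE

section

variable {p q a b c : ℕ} [NeZero p] [NeZero q] {z : ZMod p → ZMod (p * q)} {i0 ρ : ZMod p}
  {θ : ZMod (p * q)} {δ l : ℕ} {k : ℤ}

/-- ties of the second kind with `q ρ = - a` are impossible -/
theorem chain_false (h : LS p q a b c z i0 ρ θ δ l k) (h2a : 2 * a < p) (h2b : 2 * b < p)
    (hK : KEm p q a b ρ θ l) (hba : b ≤ a) (hap : a.Coprime p) {σ : ℤ} (hσ : σ = 1 ∨ σ = -1)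
    (hρ : ρ = (σ : ZMod p) * ((a : ZMod p) * b)) {K : ℕ} (hk : k = -(K : ℤ)) (hKb : b + 1 ≤ K)
    (hKa : K < a) (hql : q < p + l) (hτ : (q : ZMod p) * ρ = -(a : ZMod p)) : False := by
  have hc := h.hB.hc
  have hl := h.hl
  have hpq := h.hpq
  have ha := h.hP.ha
  have hb := h.hP.hb
  have hab := h.hP.hab
  have hT := tie1 h (n := p - 1) (by omega) (by omega) hk
  -- the extremal levels
  have hext : ∀ t : ℕ, t + 1 ≤ b → (t = 0 ∨ K + t ≤ a) →
      Ext q a b z (i0 + ((p - 1 : ℕ) : ZMod p) * ρ + ((a + 1 + t : ℕ) : ZMod p))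
      (bx q c z (i0 + ((p - 1 : ℕ) : ZMod p) * ρ) + (p : ZMod (p * q)))
      (sc q z (i0 + ((p - 1 : ℕ) : ZMod p) * ρ) + a * q) := by
    intro t ht ht2
    refine ext_of h h2a h2b hK hT (Or.inl hKa) ht (by omega) (by omega) ?_
    rcases ht2 with ht2 | ht2
    · exact Or.inl ht2
    · right
      refine ⟨i0 + ((p - 1 - (q - l) : ℕ) : ZMod p) * ρ, ?_, ?_, ht2⟩
      · exact ((tie_iff h (n := p - 1 - (q - l)) (m := p - 1) (by omega) (by omega)).2
          (Or.inr (by omega))).symm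
      · have h1 := row_S h hk hKa.le hτ (m := p - 1) (by omega)
        rw [h1, Nat.cast_sub (show K ≤ a + b by omega)]
        ring
  have hstop : ∀ t : ℕ, t + 1 ≤ b → (t = 0 ∨ K + t ≤ a) →
      ∃ J d : ℕ, 1 ≤ J ∧ St q a b c z i0 ρ l K t J d ∧ d ≤ b ∧
      (∀ i : ℕ, 1 ≤ i → i < J → ∃ d', St q a b c z i0 ρ l K t i d' ∧ b + 1 ≤ d') ∧
      J * b + d ≤ a - K + 1 + t := by
    intro t ht ht2
    have hE := hext t ht ht2
    refine stop h h2a h2b hK hba hk hKb hKa hql hτ ht hE ?_
    intro X hX hXe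
    exact fin2 h h2a h2b hK hba hap hσ hρ hk hKb hKa.le hql hτ ht rfl hE hX hXe.ge
  obtain ⟨J0, d0, hJ0, hS0, hd0, hi0, hB0⟩ := hstop 0 (by omega) (Or.inl rfl)
  have hd01 := hS0.h1
  have hJb : 1 * b ≤ J0 * b := Nat.mul_le_mul_right b hJ0
  have hF0 := Fs_le (p := p) (q := q) (l := l) (by omega) (J0 - 1)
  rw [show J0 - 1 + 1 = J0 by omega] at hF0
  rcases (by omega : d0 = 1 ∨ 2 ≤ d0) with h1 | h1
  · -- the line passes through the corner
    subst h1
    have hdd := hS0.hd
    apply arith2 (p := p) (q := q) (l := l) (a := a) (b := b) (K := K) (J := J0) (by omega) hl hpq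
      hql hKb hKa hJ0
    · have hW := hS0.hW
      have hv := hS0.hv
      have h2 : ((vs p q l J0 + 1 + q : ℕ) : ZMod p) * ρ = 0 * ρ := by
        have h3 : ((p - 1 : ℕ) : ZMod p) = -1 := by
          rw [Nat.cast_sub (by omega), ZMod.natCast_self]
          push_cast
          ring
        rw [h3] at hW
        push_cast at hW ⊢
        linear_combination hτ - hW
      have h4 := h.hAP.1.mul_right_cancel h2
      obtain ⟨x, hx⟩ := (ZMod.natCast_eq_zero_iff _ _).1 h4
      have h8 : x = 2 := by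
        have h9 : p * 1 < p * x := by omega
        have h10 : p * x < p * 3 := by omega
        have := Nat.lt_of_mul_lt_mul_left h9
        have := Nat.lt_of_mul_lt_mul_left h10
        omega
      subst h8
      omega
    · rw [Nat.mul_succ]
      omega
    · intro i h2 h3
      obtain ⟨d', hS', hd'⟩ := hi0 i h2 h3
      exact ⟨d', hS'.hd, hd', hS'.h2, hS'.hv⟩
  · -- the line enters through the bottom
    have hKab : K + b ≤ a := by omega
    obtain ⟨J1, d1, hJ1, hS1, hd1, hi1, hB1⟩ := hstop (b + 1 - d0) (by omega)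
      (Or.inr (by omega))
    have hd11 := hS1.h1
    have hF1 := Fs_le (p := p) (q := q) (l := l) (by omega) (J1 - 1)
    rw [show J1 - 1 + 1 = J1 by omega] at hF1
    have e0 := hS0.hd
    have e1 := hS1.hd
    have hlt : J0 < J1 := by
      by_contra hcon
      rcases Nat.lt_or_ge J1 J0 with h2 | h2
      · obtain ⟨d', hS', hd'⟩ := hi0 J1 hJ1 h2
        have := hS'.hd
        omega
      · have : J1 = J0 := by omega
        subst this
        omega
    have f0 : (d0 : ℤ) + J0 * ((a : ℤ) + b - K) = a + 1 + a * (Fs p q l J0) := by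
      have h2 : ((a + b - K : ℕ) : ℤ) = (a : ℤ) + b - K := by
        rw [Nat.cast_sub (by omega)]
        push_cast
        ring
      rw [← h2]
      exact_mod_cast e0
    have f1 : (d1 : ℤ) + J1 * ((a : ℤ) + b - K) = a + 1 + (b + 1 - d0) + a * (Fs p q l J1) := by
      have h2 : ((a + b - K : ℕ) : ℤ) = (a : ℤ) + b - K := by
        rw [Nat.cast_sub (by omega)]
        push_cast
        ring
      have h3 : ((b + 1 - d0 : ℕ) : ℤ) = (b : ℤ) + 1 - d0 := by
        rw [Nat.cast_sub (by omega)]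
        push_cast
        ring
      rw [← h2, ← h3]
      exact_mod_cast e1
    have hB1' : (J1 : ℤ) * b + d1 ≤ a - K + 1 + (b + 1 - d0) := by
      have h3 : ((J1 * b : ℕ) : ℤ) = (J1 : ℤ) * b := by push_cast; ring
      rw [← h3]
      omega
    exact arith1 (J0 := J0) (J1 := J1) (A0 := (Fs p q l J0 : ℤ) + 1)
      (A1 := (Fs p q l J1 : ℤ) + 1) (r := (d0 : ℤ) - 1) (g := b + 2 - d0 - d1)
      (μ := (a : ℤ) + b - K) (a := a) (b := b) (by omega)
      (by linear_combination f0) (by linear_combination f1) (by omega) (by omega) (by omega)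
      (by omega) (by omega)
      (by linarith) (by omega) (by omega) (by omega) (by omega) (by omega)

end

end Helper55.KV
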