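import Pool.Agent.Helper55.KE.MD

set_option autoImplicit false
set_option linter.unusedSectionVars false

/-!
# Block flat progressions without overlap vectors: basic facts on one level
-/

namespace Helper55.KV

open Helper11.N1 Helper55.KE
open Helper11.N1.DECaux (ind ite_ind ind_and ind_congr ind_pos ind_neg)

section pack

variable {M : ℕ} [NeZero M]

/-- points with large distances -/
theorem pack (s : Finset (ZMod M)) (D : ℕ)
    (h : ∀ x ∈ s, ∀ y ∈ s, x ≠ y → D ≤ off x y) (h1 : D ≤ M) : s.card * D ≤ M := by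
  classical
  have h2 : ((s ×ˢ Finset.range D).image fun v : ZMod M × ℕ => v.1 + (v.2 : ZMod M)).card =
      s.card * D := by
    rw [Finset.card_image_of_injOn, Finset.card_product, Finset.card_range]
    rintro ⟨x, t⟩ hx ⟨y, u⟩ hy hxy
    rw [Finset.mem_coe, Finset.mem_product, Finset.mem_range] at hx hy
    obtain ⟨hx1, hx2⟩ := hx
    obtain ⟨hy1, hy2⟩ := hy
    dsimp only at hx1 hx2 hy1 hy2 hxy
    by_cases hne : x = y
    · subst hne
      have h3 : ((t : ℕ) : ZMod M) = (u : ℕ) := add_left_cancel hxy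
      have h4 := Nat.ModEq.eq_of_lt_of_lt ((ZMod.natCast_eq_natCast_iff t u M).1 h3)
        (by omega) (by omega)
      rw [h4]
    · exfalso
      rcases le_total u t with h3 | h3
      · have h4 := h x hx1 y hy1 hne
        have h5 : off x y = t - u := by
          rw [off_eq_iff x y (by omega), Nat.cast_sub h3]
          linear_combination -hxy
        omega
      · have h4 := h y hy1 x hx1 (fun h => hne h.symm)
        have h5 : off y x = u - t := by
          rw [off_eq_iff y x (by omega), Nat.cast_sub h3]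
          linear_combination hxy
        omega
  have h3 := Finset.card_le_univ ((s ×ˢ Finset.range D).image
    fun v : ZMod M × ℕ => v.1 + (v.2 : ZMod M))
  rw [h2, ZMod.card] at h3
  exact h3

end pack

section

variable {p q a b c : ℕ} [NeZero p] [NeZero q] {z : ZMod p → ZMod (p * q)} {i0 ρ : ZMod p}
  {θ : ZMod (p * q)} {δ l : ℕ} {k : ℤ}

/-- no overlap vectors except the ties -/
def KEm (p q a b : ℕ) (ρ : ZMod p) (θ : ZMod (p * q)) (l : ℕ) : Prop :=
  ∀ n : ℕ, 0 < n → n < p → n ≠ l → n + l ≠ q → ∀ x r : ℤ, At ρ θ n x r →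
    ¬ (|x| < b * q ∧ |x + r * q| < a * q)

/-- the function of the abscissa at one level -/
noncomputable def LA (q a b : ℕ) (z : ZMod p → ZMod (p * q)) (W : ZMod p) (X : ZMod (p * q)) : ℤ :=
  - NN q a b z X (X + e p q W) - rhoS q a b z W (X + e p q W)

theorem ff_la (hP : Par p q a b) (z : ZMod p → ZMod (p * q)) (X : ZMod (p * q)) (W : ZMod p)
    (S : ZMod (p * q)) :
    FF q a b z X W S = NN q a b z X S + LA q a b z W X + rhoS q a b z W S := by
  rw [dec p q a b hP z X W S]
  unfold LA
  ring

/-- the columns of a cluster change at its sides only -/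
theorem jblock (hP : Par p q a b) (hB : Blk q b c z) {X : ZMod (p * q)} (hX : rp p q X = 0)
    (j : ZMod p) :
    ind (off (X + (p : ZMod (p * q))) (z j) < b * q) - ind (off X (z j) < b * q) =
      ind (byy q b c z j = X) - ind (bx q c z j = X) := by
  have hc := hB.hc
  have ha := hP.ha
  have hab := hP.hab
  have key : ∀ m : ℕ, m ≤ p →
      ind (off (X + (m : ZMod (p * q))) (z j) < b * q) - ind (off X (z j) < b * q) =
        ind (1 - c < m ∧ byy q b c z j = X) - ind (c < m ∧ bx q c z j = X) := by
    intro m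
    induction m with
    | zero =>
      intro _
      have g1 : ¬ (1 - c < 0 ∧ byy q b c z j = X) := by omega
      have g2 : ¬ (c < 0 ∧ bx q c z j = X) := by omega
      rw [ind_neg g1, ind_neg g2, Nat.cast_zero, add_zero]
      ring
    | succ m ih =>
      intro hm
      have ih' := ih (by omega)
      have h3 := jstep hP (X + (m : ZMod (p * q))) (z j)
      have e1 : X + (m : ZMod (p * q)) + 1 = X + ((m + 1 : ℕ) : ZMod (p * q)) := by
        push_cast; ring
      rw [e1, ind_congr (x_pos hP hB hX (by omega) j),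
        ind_congr (y_pos hP hB hX (by omega) j)] at h3
      have g1 : ind (1 - c < m + 1 ∧ byy q b c z j = X) =
          ind (1 - c < m ∧ byy q b c z j = X) + ind (m = 1 - c ∧ byy q b c z j = X) := by
        rw [ind_and, ind_and, ind_and, ← add_mul]
        congr 1
        rcases lt_trichotomy (1 - c) m with h | h | h
        · rw [ind_pos (by omega), ind_pos (by omega), ind_neg (by omega)]; ring
        · rw [ind_pos (by omega), ind_neg (by omega), ind_pos (by omega)]; ring
        · rw [ind_neg (by omega), ind_neg (by omega), ind_neg (by omega)]; ring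
      have g2 : ind (c < m + 1 ∧ bx q c z j = X) =
          ind (c < m ∧ bx q c z j = X) + ind (m = c ∧ bx q c z j = X) := by
        rw [ind_and, ind_and, ind_and, ← add_mul]
        congr 1
        rcases lt_trichotomy c m with h | h | h
        · rw [ind_pos (by omega), ind_pos (by omega), ind_neg (by omega)]; ring
        · rw [ind_pos (by omega), ind_neg (by omega), ind_pos (by omega)]; ring
        · rw [ind_neg (by omega), ind_neg (by omega), ind_neg (by omega)]; ring
      rw [g1, g2]
      linarith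
  have h := key p le_rfl
  have g1 : ind (1 - c < p ∧ byy q b c z j = X) = ind (byy q b c z j = X) := by
    apply ind_congr
    constructor
    · exact fun h => h.2
    · exact fun h => ⟨by omega, h⟩
  have g2 : ind (c < p ∧ bx q c z j = X) = ind (bx q c z j = X) := by
    apply ind_congr
    constructor
    · exact fun h => h.2
    · exact fun h => ⟨by omega, h⟩
  rw [g1, g2] at h
  exact h

theorem nn_sum (X S : ZMod (p * q)) : NN q a b z X S =
    ∑ j : ZMod p, ind (off X (z j) < b * q) * ind (off (sc q z j + 1) S < a * q) := by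
  unfold NN
  apply Finset.sum_congr rfl
  intro j _
  rw [ite_ind]
  unfold box
  rw [ind_and]

theorem nn_jump (hP : Par p q a b) (hB : Blk q b c z) {X : ZMod (p * q)} (hX : rp p q X = 0)
    (S : ZMod (p * q)) :
    NN q a b z (X + (p : ZMod (p * q))) S - NN q a b z X S = - JV q a b c z X S := by
  rw [nn_sum, nn_sum, ← Finset.sum_sub_distrib]
  unfold JV
  rw [← Finset.sum_neg_distrib]
  apply Finset.sum_congr rfl
  intro j _
  have h := jblock hP hB hX j
  rw [← sub_mul, h]
  ring

/-- the jump of the function of the abscissa over a block -/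
theorem la_jump (hP : Par p q a b) (hB : Blk q b c z) {X : ZMod (p * q)} (hX : rp p q X = 0)
    (W : ZMod p) :
    LA q a b z W (X + (p : ZMod (p * q))) = LA q a b z W X + KV q a b c z X W := by
  have h1 := bjump hP hB hX W 0
  rw [ff_la hP, ff_la hP] at h1
  have h2 := nn_jump hP hB hX 0
  linarith

theorem rp_add_p {X : ZMod (p * q)} (hX : rp p q X = 0) :
    rp p q (X + (p : ZMod (p * q))) = 0 := by
  rw [map_add, hX, map_natCast, ZMod.natCast_self, add_zero]

theorem nn_pos {X S : ZMod (p * q)} {j : ZMod p} (h : box q a b z j X S) :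
    1 ≤ NN q a b z X S := by
  classical
  unfold NN
  have h1 : (if box q a b z j X S then (1 : ℤ) else 0) = 1 := if_pos h
  refine le_trans (le_of_eq h1.symm) ?_
  exact Finset.single_le_sum (f := fun j => if box q a b z j X S then (1 : ℤ) else 0)
    (fun i _ => by split_ifs <;> norm_num) (Finset.mem_univ j)

theorem nn_ex {X S : ZMod (p * q)} (h : 1 ≤ NN q a b z X S) : ∃ j, box q a b z j X S := by
  classical
  by_contra hcon
  push Not at hcon
  have h1 : NN q a b z X S = 0 := by
    unfold NN
    apply Finset.sum_eq_zero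
    intro j _
    exact if_neg (hcon j)
  omega

theorem nn_nonneg (X S : ZMod (p * q)) : 0 ≤ NN q a b z X S := by
  classical
  unfold NN
  apply Finset.sum_nonneg
  intro j _
  split_ifs <;> norm_num

theorem nn_le {X S : ZMod (p * q)} (h : ∀ i j, box q a b z i X S → box q a b z j X S → i = j) :
    NN q a b z X S ≤ 1 := by
  classical
  by_cases h1 : ∃ j, box q a b z j X S
  · obtain ⟨j, hj⟩ := h1
    unfold NN
    rw [Finset.sum_eq_single j]
    · rw [if_pos hj]
    · intro i _ hi
      exact if_neg fun h2 => hi (h i j h2 hj)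
    · intro h2
      exact absurd (Finset.mem_univ _) h2
  · push Not at h1
    have : NN q a b z X S = 0 := by
      unfold NN
      apply Finset.sum_eq_zero
      intro j _
      exact if_neg (h1 j)
    omega

/-- `q θ = 0` -/
theorem q_theta (hP : Par p q a b) (hB : Blk q b c z) (hAP : AP q z i0 ρ θ) :
    (q : ZMod (p * q)) * θ = 0 := by
  have h1 := rp_theta hP hB hAP
  rw [rp_zero_iff] at h1
  obtain ⟨t, ht⟩ := h1
  have h2 : θ = ((p * t : ℕ) : ZMod (p * q)) := by rw [← ht, ZMod.natCast_zmod_val]
  rw [h2]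
  have h3 : ((p * q : ℕ) : ZMod (p * q)) = 0 := ZMod.natCast_self _
  push_cast at h3 ⊢
  linear_combination (t : ZMod (p * q)) * h3

/-- an integer which is small and congruent to `v` -/
theorem int_eq {M : ℕ} {x v : ℤ} (h : ((x : ℤ) : ZMod M) = (v : ZMod M)) (h1 : x - v < M)
    (h2 : v - x < M) : x = v := by
  have h3 : (((x - v : ℤ)) : ZMod M) = 0 := by
    push_cast
    rw [h, sub_self]
  rw [ZMod.intCast_zmod_eq_zero_iff_dvd] at h3
  have h4 := Int.eq_zero_of_abs_lt_dvd h3 (abs_lt.2 ⟨by omega, by omega⟩)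
  omega

/-- overlaps of two different boxes of a progression without overlap vectors -/
theorem disj_aux (h : LS p q a b c z i0 ρ θ δ l k) (h2b : 2 * b < p)
    (hK : KEm p q a b ρ θ l) {n1 n2 : ℕ} (hn1 : n1 < p) (hn : n2 < n1) {X S : ZMod (p * q)}
    (hi : box q a b z (i0 + (n1 : ZMod p) * ρ) X S)
    (hj : box q a b z (i0 + (n2 : ZMod p) * ρ) X S) :
    c = 1 ∧ (X = z (i0 + (n1 : ZMod p) * ρ) ∨ X = z (i0 + (n2 : ZMod p) * ρ)) := by
  obtain ⟨haq, hbq, habq, h2a, h2b'⟩ := lt_mul_of h.hP
  have hq1 := h.hP.hq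
  have hq2 : 2 * (b * q) + q ≤ p * q := by
    calc 2 * (b * q) + q = (2 * b + 1) * q := by ring
      _ ≤ p * q := Nat.mul_le_mul_right q (by omega)
  set i := i0 + (n1 : ZMod p) * ρ with hi'
  set j := i0 + (n2 : ZMod p) * ρ with hj'
  obtain ⟨hi1, hi2⟩ := hi
  obtain ⟨hj1, hj2⟩ := hj
  have zi : z i = X + (off X (z i) : ℕ) := (off_spec _ _).symm
  have zj : z j = X + (off X (z j) : ℕ) := (off_spec _ _).symm
  have si : S = sc q z i + 1 + (off (sc q z i + 1) S : ℕ) := (off_spec _ _).symm
  have sj : S = sc q z j + 1 + (off (sc q z j + 1) S : ℕ) := (off_spec _ _).symm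
  have hcc := h.hB.hc
  generalize ht1 : off X (z i) = t1 at *
  generalize ht2 : off X (z j) = t2 at *
  generalize hu1 : off (sc q z i + 1) S = u1 at *
  generalize hu2 : off (sc q z j + 1) S = u2 at *
  have hx : ((n1 - n2 : ℕ) : ZMod (p * q)) * θ = (((t1 : ℤ) - t2 : ℤ) : ZMod (p * q)) := by
    have h1 := h.hAP.2 n1 hn1
    have h2 := h.hAP.2 n2 (by omega)
    rw [← hi'] at h1
    rw [← hj'] at h2
    rw [Nat.cast_sub hn.le]
    push_cast
    linear_combination -h1 + h2 + zi - zj
  have he : e p q (((n1 - n2 : ℕ) : ZMod p) * ρ) =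
      (((u2 : ℤ) - u1 - (t1 - t2) : ℤ) : ZMod (p * q)) := by
    have h1 : ((n1 - n2 : ℕ) : ZMod p) * ρ = i - j := by
      rw [Nat.cast_sub hn.le, hi', hj']
      ring
    rw [h1, e_sub]
    unfold sc at si sj
    push_cast
    linear_combination -si + sj - zi + zj
  obtain ⟨r, hr⟩ : (q : ℤ) ∣ (u2 : ℤ) - u1 - (t1 - t2) := by
    have h1 := congrArg (res p q) he
    rw [res_e, res_int] at h1
    exact (ZMod.intCast_zmod_eq_zero_iff_dvd _ _).1 h1.symm
  have hA : At ρ θ (n1 - n2) ((t1 : ℤ) - t2) r := by
    refine ⟨hx, ?_⟩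
    apply e_inj p q hq1
    rw [he, e_int, hr]
    congr 1
    ring
  have hbqz : ((b * q : ℕ) : ℤ) = (b : ℤ) * q := by push_cast; ring
  have haqz : ((a * q : ℕ) : ℤ) = (a : ℤ) * q := by push_cast; ring
  have hMz : ((p * q : ℕ) : ℤ) = (p : ℤ) * q := by push_cast; ring
  have hx1 : |(t1 : ℤ) - t2| < b * q := by
    rw [abs_lt, ← hbqz]
    constructor <;> omega
  have hy1 : |((t1 : ℤ) - t2) + r * q| < a * q := by
    have h1 : ((t1 : ℤ) - t2) + r * q = (u2 : ℤ) - u1 := by linear_combination -hr
    rw [h1, abs_lt, ← haqz]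
    constructor <;> omega
  by_cases hl : n1 - n2 = l
  · have h1 : ((((t1 : ℤ) - t2 : ℤ)) : ZMod (p * q)) = ((-(b * q) - (1 - 2 * c) : ℤ) : ZMod (p * q)) := by
      rw [← hx, hl, h.hxl]
    have h2 := int_eq h1 (by rw [abs_lt] at hx1; push_cast at *; omega)
      (by rw [abs_lt] at hx1; push_cast at *; omega)
    have h3 : c = 1 := by
      by_contra hcon
      have : c = 0 := by omega
      subst this
      rw [h2, abs_lt] at hx1
      push_cast at hx1
      omega
    refine ⟨h3, Or.inl ?_⟩
    subst h3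
    have h4 : t1 = 0 := by
      push_cast at h2
      omega
    rw [zi, h4, Nat.cast_zero, add_zero]
  · by_cases hl2 : n1 - n2 + l = q
    · have h0 : ((n1 - n2 : ℕ) : ZMod (p * q)) * θ = ((b * q + (1 - 2 * c) : ℤ) : ZMod (p * q)) := by
        have h1 := q_theta h.hP h.hB h.hAP
        have h2 : ((n1 - n2 : ℕ) : ZMod (p * q)) = (q : ZMod (p * q)) - (l : ZMod (p * q)) := by
          rw [← hl2]
          push_cast
          ring
        rw [h2, sub_mul, h1, h.hxl]
        push_cast
        ring
      have h1 : ((((t1 : ℤ) - t2 : ℤ)) : ZMod (p * q)) = ((b * q + (1 - 2 * c) : ℤ) : ZMod (p * q)) := by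
        rw [← hx, h0]
      have h2 := int_eq h1 (by rw [abs_lt] at hx1; push_cast at *; omega)
        (by rw [abs_lt] at hx1; push_cast at *; omega)
      have h3 : c = 1 := by
        by_contra hcon
        have : c = 0 := by omega
        subst this
        rw [h2, abs_lt] at hx1
        push_cast at hx1
        omega
      refine ⟨h3, Or.inr ?_⟩
      subst h3
      have h4 : t2 = 0 := by
        push_cast at h2
        omega
      rw [zj, h4, Nat.cast_zero, add_zero]
    · exfalso
      exact hK (n1 - n2) (by omega) (by omega) hl hl2 _ _ hA ⟨hx1, hy1⟩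

/-- two different boxes overlap only at the right side of one of them, and only if `c = 1` -/
theorem disj_gen (h : LS p q a b c z i0 ρ θ δ l k) (h2b : 2 * b < p)
    (hK : KEm p q a b ρ θ l) {i j : ZMod p} (hij : i ≠ j) {X S : ZMod (p * q)}
    (hi : box q a b z i X S) (hj : box q a b z j X S) : c = 1 ∧ (X = z i ∨ X = z j) := by
  obtain ⟨n1, hn1, rfl⟩ := ap_row h.hAP i
  obtain ⟨n2, hn2, rfl⟩ := ap_row h.hAP j
  rcases lt_trichotomy n1 n2 with h1 | h1 | h1
  · obtain ⟨h2, h3⟩ := disj_aux h h2b hK hn2 h1 hj hi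
    exact ⟨h2, h3.symm⟩
  · exact absurd (by rw [h1]) hij
  · exact disj_aux h h2b hK hn1 h1 hi hj

/-- the boxes are disjoint at block positions -/
theorem disj_blk (h : LS p q a b c z i0 ρ θ δ l k) (h2b : 2 * b < p)
    (hK : KEm p q a b ρ θ l) {i j : ZMod p} {X S : ZMod (p * q)} (hX : rp p q X = 0)
    (hi : box q a b z i X S) (hj : box q a b z j X S) : i = j := by
  by_contra hij
  obtain ⟨h1, h2⟩ := disj_gen h h2b hK hij hi hj
  have h3 : ∀ m : ZMod p, X ≠ z m := by
    intro m hm
    have h4 := h.hB.hx m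
    rw [← hm, hX, h1, Nat.cast_one] at h4
    have ha := h.hP.ha
    have hab := h.hP.hab
    have : Fact (1 < p) := ⟨by omega⟩
    exact zero_ne_one h4
  rcases h2 with h2 | h2
  · exact h3 _ h2
  · exact h3 _ h2

end

end Helper55.KV
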