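import Pool.Agent.Helper55.KV.Fin

set_option autoImplicit false
set_option linter.unusedSectionVars false

/-!
# Following the line to the left through tied boxes
-/

namespace Helper55.KV

open Helper11.N1 Helper55.KE
open Helper11.N1.DECaux (ind ite_ind ind_and ind_congr ind_pos ind_neg)

/-- the function of the ordinate is constant on the rows from `Y` to `ST = Y + D` -/
structure Rows {p : ℕ} (q a b : ℕ) [NeZero p] [NeZero q] (z : ZMod p → ZMod (p * q)) (W : ZMod p)
    (ST Y : ZMod (p * q)) (D : ℕ) : Prop where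
  hY : Y + (D : ZMod (p * q)) = ST
  hr : ∀ m : ℕ, m ≤ D → rhoS q a b z W (Y + (m : ZMod (p * q))) = rhoS q a b z W ST

/-- the indices of the tied boxes to the left of the last one -/
def vs (p q l : ℕ) : ℕ → ℕ
  | 0 => p - 1
  | j + 1 => if q - l ≤ vs p q l j then vs p q l j - (q - l) else vs p q l j + l

/-- the number of ties of the first kind -/
def Fs (p q l : ℕ) : ℕ → ℕ
  | 0 => 0
  | j + 1 => if q - l ≤ vs p q l j then Fs p q l j else Fs p q l j + 1

section

variable {p q a b c : ℕ} [NeZero p] [NeZero q] {z : ZMod p → ZMod (p * q)} {i0 ρ : ZMod p}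
  {θ : ZMod (p * q)} {δ l : ℕ} {k : ℤ}

theorem vs_zero (p q l : ℕ) : vs p q l 0 = p - 1 := rfl

theorem vs_S {p q l j : ℕ} (h : q - l ≤ vs p q l j) :
    vs p q l (j + 1) = vs p q l j - (q - l) := if_pos h

theorem vs_F {p q l j : ℕ} (h : ¬ q - l ≤ vs p q l j) :
    vs p q l (j + 1) = vs p q l j + l := if_neg h

theorem Fs_S {p q l j : ℕ} (h : q - l ≤ vs p q l j) : Fs p q l (j + 1) = Fs p q l j := if_pos h

theorem Fs_F {p q l j : ℕ} (h : ¬ q - l ≤ vs p q l j) :
    Fs p q l (j + 1) = Fs p q l j + 1 := if_neg h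

theorem vs_eq {p q l : ℕ} (hl : l ≤ q) (hp : 1 ≤ p) (j : ℕ) :
    vs p q l j + j * (q - l) + 1 = p + q * Fs p q l j := by
  induction j with
  | zero =>
    rw [vs_zero]
    show p - 1 + 0 * (q - l) + 1 = p + q * 0
    omega
  | succ j ih =>
    by_cases h : q - l ≤ vs p q l j
    · rw [vs_S h, Fs_S h, Nat.succ_mul]
      omega
    · rw [vs_F h, Fs_F h, Nat.succ_mul, Nat.mul_succ]
      omega

theorem Fs_le {p q l : ℕ} (h : q - l ≤ p - 1) (j : ℕ) : Fs p q l (j + 1) ≤ j := by
  induction j with
  | zero =>
    rw [Fs_S (by rw [vs_zero]; exact h)]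
    exact le_rfl
  | succ j ih =>
    by_cases h : q - l ≤ vs p q l (j + 1)
    · rw [Fs_S h]
      omega
    · rw [Fs_F h]
      omega

/-- extending the range of constant rows inside a box -/
theorem Rows.ext (h : LS p q a b c z i0 ρ θ δ l k) (h2b : 2 * b < p) (hK : KEm p q a b ρ θ l)
    {W f : ZMod p} {ST : ZMod (p * q)} {d τ s D : ℕ} (hW : W = f + (d : ZMod p))
    (hR : Rows q a b z W ST (sc q z f + (τ : ZMod (p * q))) D) (hs1 : 1 ≤ s)
    (hs2 : d * q ≤ b * q + s) (hsτ : s ≤ τ) (hτa : τ ≤ a * q) (hτd : τ + c ≤ d * q) :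
    Rows q a b z W ST (sc q z f + (s : ZMod (p * q))) (D + (τ - s)) := by
  refine ⟨?_, ?_⟩
  · rw [← hR.hY, Nat.cast_add, Nat.cast_sub hsτ]
    ring
  · intro m hm
    rcases Nat.lt_or_ge m (τ - s) with h1 | h1
    · have h2 := nbd_eq h h2b hK hW (s := s) (t := s + m) hs1 hs2 (by omega) (by omega) (by omega)
      have h3 := nbd_eq h h2b hK hW (s := s) (t := τ) hs1 hs2 hsτ hτa hτd
      have h4 := hR.hr 0 (Nat.zero_le _)
      rw [Nat.cast_zero, add_zero] at h4
      have e1 : sc q z f + (s : ZMod (p * q)) + (m : ZMod (p * q)) =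
          sc q z f + ((s + m : ℕ) : ZMod (p * q)) := by push_cast; ring
      rw [e1, h2, ← h3, h4]
    · have h2 := hR.hr (m - (τ - s)) (by omega)
      have e1 : sc q z f + (s : ZMod (p * q)) + (m : ZMod (p * q)) =
          sc q z f + (τ : ZMod (p * q)) + ((m - (τ - s) : ℕ) : ZMod (p * q)) := by
        rw [Nat.cast_sub h1, Nat.cast_sub hsτ]
        ring
      rw [e1, h2]

/-- passing a tie -/
theorem Rows.tie (h : LS p q a b c z i0 ρ θ δ l k) {W f f' : ZMod p} {ST : ZMod (p * q)}
    {d D : ℕ} (hW : W = f + (d : ZMod p)) (hd : b + 1 ≤ d)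
    (hR : Rows q a b z W ST (sc q z f + (((d - b) * q : ℕ) : ZMod (p * q))) D)
    (hf : bx q c z f' = byy q b c z f) :
    Rows q a b z W ST (bx q c z f' + e p q W) (D + (1 - c)) := by
  have hc := h.hB.hc
  have h1 := line_byy (c := c) (z := z) hW hd
  rw [← hf] at h1
  rcases (by omega : c = 0 ∨ c = 1) with rfl | rfl
  · have hP := h.hP
    have hab := hP.hab
    have ha := hP.ha
    have hq1 := hP.hq
    obtain ⟨d', hd1, hdp, hd'⟩ := exists_d W f'
    have hline := line_bx (z := z) (c := 0) (by omega) h.hP.hq hd' hd1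
    rw [Nat.sub_zero] at hline
    have hne : ∀ x : ℕ, x < p → d' ≠ x → ((d' * q : ℕ) : ZMod (p * q)) =
        ((x * q : ℕ) : ZMod (p * q)) → d' = p ∧ x = 0 := by
      intro x hx hdx h6
      rcases Nat.lt_or_ge d' p with h5 | h5
      · exfalso
        have h7 := nat_eq (Nat.mul_lt_mul_of_pos_right h5 (by omega))
          (Nat.mul_lt_mul_of_pos_right hx (by omega)) h6
        exact hdx (Nat.eq_of_mul_eq_mul_right (by omega) h7)
      · refine ⟨by omega, ?_⟩
        have h8 : d' = p := by omega
        rw [h8, ZMod.natCast_self] at h6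
        have hpq0 : 0 < p * q := Nat.mul_pos (by omega) (by omega)
        have hxq : x * q < p * q := Nat.mul_lt_mul_of_pos_right hx (by omega)
        have h9 : 0 = x * q := nat_eq (m := 0) hpq0 hxq (by rw [Nat.cast_zero]; exact h6)
        rcases Nat.eq_zero_or_pos x with h10 | h10
        · exact h10
        · have : 1 * 1 ≤ x * q := Nat.mul_le_mul h10 hq1
          omega
    have hres : res p q (bx q 0 z f' + e p q W) = res p q (z f') := by
      rw [hline]
      simp only [map_add, res_sc, Nat.cast_mul, res_mul_q, add_zero]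
    have hstep : rhoS q a b z W (bx q 0 z f' + e p q W + 1) =
        rhoS q a b z W (bx q 0 z f' + e p q W) := by
      apply rho_const h.hP
      · intro j hj hjS
        have h5 : j = f' := by
          apply gen_res p q h.hG
          have h6 := congrArg (res p q) hjS
          rw [map_add, res_mul_q, add_zero, res_sc, hres] at h6
          exact h6
        subst h5
        have h6 := (aT_iff' h.hP hd' hd1 hdp).1 hj
        rw [hline] at hjS
        have h7 := hne a (by omega) (by omega) (by
          push_cast at hjS ⊢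
          linear_combination -hjS)
        omega
      · intro j hj hjS
        have h5 : j = f' := by
          apply gen_res p q h.hG
          have h6 := congrArg (res p q) hjS
          rw [res_sc, hres] at h6
          exact h6
        subst h5
        have h6 := (aB_iff hd' hd1 hdp).1 hj
        rw [hline] at hjS
        have h7 := hne 0 (by omega) (by omega) (by
          push_cast at hjS ⊢
          linear_combination -hjS)
        omega
    refine ⟨?_, ?_⟩
    · rw [← hR.hY, ← h1]
      push_cast
      ring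
    · intro m hm
      rcases Nat.eq_zero_or_pos m with rfl | hm0
      · have h2 := hR.hr 0 (Nat.zero_le _)
        rw [Nat.cast_zero, add_zero, ← h1] at h2
        rw [← h2, Nat.cast_zero, add_zero, Nat.sub_zero, Nat.cast_one]
        exact hstep.symm
      · have h2 := hR.hr (m - 1) (by omega)
        rw [← h2]
        congr 1
        rw [← h1, Nat.cast_sub (show 1 ≤ m by omega)]
        push_cast
        ring
  · have e1 : bx q 1 z f' + e p q W = sc q z f + (((d - b) * q : ℕ) : ZMod (p * q)) := by
      rw [← h1]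
      push_cast
      ring
    rw [e1]
    exact hR

end

end Helper55.KV
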