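import Pool.Agent.Helper55.KV.Idx

set_option autoImplicit false
set_option linter.unusedSectionVars false

/-!
# The final count
-/

namespace Helper55.KV

open Helper11.N1 Helper55.KE
open Helper11.N1.DECaux (ind ite_ind ind_and ind_congr ind_pos ind_neg)

section

variable {p q a b c : ℕ} [NeZero p] [NeZero q] {z : ZMod p → ZMod (p * q)} {i0 ρ : ZMod p}
  {θ : ZMod (p * q)} {δ l : ℕ} {k : ℤ}

theorem mul_inj (h : LS p q a b c z i0 ρ θ δ l k) {m n : ℕ} (hm : m < p) (hn : n < p)
    (hmn : (m : ZMod (p * q)) * θ = (n : ZMod (p * q)) * θ) : m = n := by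
  have hpq := h.hpq
  have h1 := (mul_theta_zero h ((m : ℤ) - n)).1 (by
    push_cast
    linear_combination hmn)
  have h2 := Int.eq_zero_of_abs_lt_dvd h1 (by rw [abs_lt]; constructor <;> omega)
  omega

theorem pack_final (h : LS p q a b c z i0 ρ θ δ l k) {w : ℕ} (hw1 : 1 ≤ w) (hwl : w ≤ l)
    (hbw : p ≤ b * w + 1)
    (hp : ∀ t : ℕ, 1 ≤ t → t ≤ l → b * q ≤ ((t : ZMod (p * q)) * θ).val + 1)
    (hm : ∀ t : ℕ, 1 ≤ t → t < w → b * q + p ≤ (-((t : ZMod (p * q)) * θ)).val + c) : False := by
  classical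
  obtain ⟨haq, hbq, habq, h2a', h2b'⟩ := lt_mul_of h.hP
  have hc := h.hB.hc
  have hpq := h.hpq
  have hl := h.hl
  have ha := h.hP.ha
  have hb := h.hP.hb
  have hab := h.hP.hab
  have hlθ : (l : ZMod (p * q)) * θ =
      -((b * q + 1 : ℕ) : ZMod (p * q)) + ((2 * c : ℕ) : ZMod (p * q)) := by
    rw [h.hxl]
    push_cast
    ring
  set s := insert ((l : ZMod (p * q)) * θ)
    ((Finset.range w).image fun j : ℕ => (j : ZMod (p * q)) * θ) with hs
  have hcard : s.card = w + 1 := by
    rw [hs, Finset.card_insert_of_notMem, Finset.card_image_of_injOn, Finset.card_range]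
    · intro i hi j hj hij
      rw [Finset.mem_coe, Finset.mem_range] at hi hj
      exact mul_inj h (by omega) (by omega) hij
    · intro hmem
      rw [Finset.mem_image] at hmem
      obtain ⟨j, hj, hj2⟩ := hmem
      rw [Finset.mem_range] at hj
      have := mul_inj h (by omega) hl hj2
      omega
  have key := pack s (b * q - 1) ?_ (by omega)
  · rw [hcard] at key
    have h1 : (w + 1) * (b * q - 1) + (w + 1) = (w + 1) * (b * q) := by
      rw [← Nat.mul_succ]
      congr 1
      omega
    have h2 : (w + 1) * (b * q) = (b * w) * q + b * q := by ring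
    have h3 : p * q ≤ (b * w) * q + q := by
      calc p * q ≤ (b * w + 1) * q := Nat.mul_le_mul_right q hbw
        _ = (b * w) * q + q := by ring
    omega
  · intro x hx y hy hxy
    rw [hs, Finset.mem_insert, Finset.mem_image] at hx hy
    rcases hx with rfl | ⟨i, hi, rfl⟩ <;> rcases hy with rfl | ⟨j, hj, rfl⟩
    · exact absurd rfl hxy
    · rw [Finset.mem_range] at hj
      rcases Nat.eq_zero_or_pos j with rfl | hj0
      · have : off ((l : ZMod (p * q)) * θ) (((0 : ℕ) : ZMod (p * q)) * θ) = b * q + 1 - 2 * c :=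
          off_of (by omega) (by
            rw [hlθ, Nat.cast_sub (by omega)]
            push_cast
            ring)
        omega
      · obtain ⟨h1, h2, h3⟩ := val_pos h hj0 (by omega)
        have h4 := hm j hj0 hj
        rw [h3] at h4
        have h5 : ((((j : ZMod (p * q)) * θ).val : ℕ) : ZMod (p * q)) = (j : ZMod (p * q)) * θ :=
          ZMod.natCast_zmod_val _
        have h6 : ((((j : ZMod (p * q)) * θ).val + (b * q + 1 - 2 * c) : ℕ) : ZMod (p * q)) =
            (j : ZMod (p * q)) * θ + ((b * q + 1 : ℕ) : ZMod (p * q)) -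
              ((2 * c : ℕ) : ZMod (p * q)) := by
          rw [Nat.cast_add, h5, Nat.cast_sub (by omega)]
          ring
        have : off ((l : ZMod (p * q)) * θ) ((j : ZMod (p * q)) * θ) =
            ((j : ZMod (p * q)) * θ).val + (b * q + 1 - 2 * c) := off_of (by omega) (by
          rw [hlθ, h6]
          ring)
        omega
    · rw [Finset.mem_range] at hi
      have h1 : off ((i : ZMod (p * q)) * θ) ((l : ZMod (p * q)) * θ) =
          (((l - i : ℕ) : ZMod (p * q)) * θ).val := by
        unfold off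
        rw [Nat.cast_sub (by omega), sub_mul]
      rw [h1]
      have := hp (l - i) (by omega) (by omega)
      omega
    · rw [Finset.mem_range] at hi hj
      have hij : i ≠ j := by
        rintro rfl
        exact hxy rfl
      rcases Nat.lt_or_gt_of_ne hij with h0 | h0
      · have h1 : off ((i : ZMod (p * q)) * θ) ((j : ZMod (p * q)) * θ) =
            (((j - i : ℕ) : ZMod (p * q)) * θ).val := by
          unfold off
          rw [Nat.cast_sub (by omega), sub_mul]
        rw [h1]
        have := hp (j - i) (by omega) (by omega)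
        omega
      · have h1 : off ((i : ZMod (p * q)) * θ) ((j : ZMod (p * q)) * θ) =
            (-(((i - j : ℕ) : ZMod (p * q)) * θ)).val := by
          unfold off
          rw [Nat.cast_sub (by omega), sub_mul, neg_sub]
        rw [h1]
        have := hm (i - j) (by omega) (by omega)
        omega

/-- the level function of a right side without active partner -/
theorem kv_pos (hG : Gen q z) {N W : ZMod p}
    (hf : ∀ g, byy q b c z g = bx q c z N → ¬ aL a b W g) :
    KV q a b c z (bx q c z N) W = ind (aR a W N) := by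
  by_cases h1 : ∃ g, byy q b c z g = bx q c z N
  · obtain ⟨g, h2⟩ := h1
    have h3 := kv_merge (a := a) hG h2 W
    rw [ind_neg (hf g h2)] at h3
    rw [h3]
    ring
  · push Not at h1
    exact kv_R hG h1 W

/-- right of a box whose bottom is active there is a column with a large value -/
theorem right_two (h : LS p q a b c z i0 ρ θ δ l k) (h2b : 2 * b < p) (hK : KEm p q a b ρ θ l)
    (hba : b ≤ a) {W : ZMod p} {X1 ST : ZMod (p * q)} (hE : Ext q a b z W X1 ST)
    {X : ZMod (p * q)} (hX : rp p q X = 0) (h2 : LA q a b z W X1 + 2 ≤ LA q a b z W X)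
    {j : ZMod p} {d : ℕ} (hW : W = j + (d : ZMod p)) (hd1 : 1 ≤ d) (hdb : d ≤ b)
    (hf : ∀ g, byy q b c z g = bx q c z j → ¬ aL a b W g) :
    LA q a b z W (bx q c z j + (p : ZMod (p * q))) = LA q a b z W X1 + 2 := by
  obtain ⟨haq, hbq, habq, h2a', h2b'⟩ := lt_mul_of h.hP
  have hc := h.hB.hc
  have hpq := h.hpq
  have ha := h.hP.ha
  have hab := h.hP.hab
  have hdq1 : 1 * q ≤ d * q := Nat.mul_le_mul_right q hd1
  have hdq2 : d * q ≤ b * q := Nat.mul_le_mul_right q hdb
  have hbaq : b * q ≤ a * q := Nat.mul_le_mul_right q hba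
  have hB : aB b W j := (aB_iff hW hd1 (by omega)).2 hdb
  have h3 := rho_B h.hP h.hG W j
  rw [ind_pos hB] at h3
  have h4 := hE.two_rho h hX h2 (sc q z j)
  have h5 := hE.rho h h2b hK (sc q z j + 1)
  have h6 : rhoS q a b z W (sc q z j + 1) = rhoS q a b z W ST := by linarith
  have h7 := nbd_eq h h2b hK hW (s := 1) (t := d * q - c) le_rfl (by omega) (by omega)
    (by omega) (by omega)
  rw [Nat.cast_one, h6] at h7
  have h8 := line_bx (z := z) hc h.hP.hq hW hd1
  have h9 : box q a b z j (bx q c z j) (bx q c z j + e p q W) := by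
    constructor
    · have : off (bx q c z j) (z j) = c := off_of (by omega) (by unfold bx; ring)
      omega
    · rw [h8]
      have : off (sc q z j + 1) (sc q z j + ((d * q - c : ℕ) : ZMod (p * q))) = d * q - c - 1 :=
        off_of (by omega) (by
          rw [Nat.cast_sub (show 1 ≤ d * q - c by omega)]
          push_cast
          ring)
      omega
  have h10 := la_in h h2b hK (bx_rp h.hB j) h9
  rw [h8, h7] at h10
  have h11 := la_jump h.hP h.hB (bx_rp h.hB j) W (a := a)
  have hR : aR a W j := (aR_iff hW hd1 (by omega)).2 (by omega)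
  rw [kv_pos h.hG hf, ind_pos hR] at h11
  have h12 := hE.hs
  linarith

theorem bw_ge (hP : Par p q a b) (hap : a.Coprime p) {σ : ℤ} (hσ : σ = 1 ∨ σ = -1)
    (hρ : ρ = (σ : ZMod p) * ((a : ZMod p) * b)) {w : ℕ} (hw1 : 1 ≤ w)
    (hw : (w : ZMod p) * ρ = a) : p ≤ b * w + 1 := by
  have hb := hP.hb
  have h1 : IsUnit (a : ZMod p) := (ZMod.isUnit_iff_coprime a p).2 hap
  have h2 : (σ : ZMod p) * ((b : ZMod p) * w) = 1 := by
    have h3 : (a : ZMod p) * ((σ : ZMod p) * ((b : ZMod p) * w)) = (a : ZMod p) * 1 := by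
      rw [hρ] at hw
      linear_combination hw
    exact h1.mul_left_cancel h3
  have h4 : 2 * 1 ≤ b * w := Nat.mul_le_mul hb hw1
  rcases hσ with rfl | rfl
  · have h5 : ((b * w - 1 : ℕ) : ZMod p) = 0 := by
      rw [Nat.cast_sub (by omega)]
      push_cast at h2 ⊢
      linear_combination h2
    have := Nat.le_of_dvd (by omega) ((ZMod.natCast_eq_zero_iff _ _).1 h5)
    omega
  · have h5 : ((b * w + 1 : ℕ) : ZMod p) = 0 := by
      push_cast at h2 ⊢
      linear_combination -h2
    exact Nat.le_of_dvd (by omega) ((ZMod.natCast_eq_zero_iff _ _).1 h5)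

/-- the consequences of a column with a large value -/
theorem fin_two (h : LS p q a b c z i0 ρ θ δ l k) (h2a : 2 * a < p) (h2b : 2 * b < p)
    (hK : KEm p q a b ρ θ l) (hba : b ≤ a) (hap : a.Coprime p) {σ : ℤ} (hσ : σ = 1 ∨ σ = -1)
    (hρ : ρ = (σ : ZMod p) * ((a : ZMod p) * b)) {K : ℕ} (hk : k = -(K : ℤ)) (hKb : b + 1 ≤ K)
    (hKa : K ≤ a) (hsec : q < p + l → (q : ZMod p) * ρ = -(a : ZMod p)) {t : ℕ}
    (ht : t + 1 ≤ b) {W : ZMod p} {X1 ST : ZMod (p * q)}
    (hW : W = i0 + ((p - 1 : ℕ) : ZMod p) * ρ + ((a + 1 + t : ℕ) : ZMod p))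
    (hE : Ext q a b z W X1 ST) {X : ZMod (p * q)} (hX : rp p q X = 0)
    (h2 : LA q a b z W X1 + 2 ≤ LA q a b z W X) :
    ∃ u : ℕ, u < l ∧ ((u + 1 : ℕ) : ZMod p) * ρ = a ∧ p ≤ b * (u + 1) + 1 ∧
      (∀ t : ℕ, 1 ≤ t → u + t < p → b * q + p ≤ ((t : ZMod (p * q)) * θ).val + c) ∧
      (∀ t : ℕ, 1 ≤ t → t ≤ u → b * q + p ≤ (-((t : ZMod (p * q)) * θ)).val + c) := by
  have hab := h.hP.hab
  have ha := h.hP.ha
  have hl := h.hl
  have hpq := h.hpq
  obtain ⟨u, hu, hu2⟩ := ap_row h.hAP (i0 + ((p - 1 : ℕ) : ZMod p) * ρ + (a : ZMod p))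
  have hu3 : ((u + 1 : ℕ) : ZMod p) * ρ = a := by
    rw [Nat.cast_sub (by omega), ZMod.natCast_self] at hu2
    push_cast at hu2 ⊢
    linear_combination -hu2
  have hWu : W = i0 + (u : ZMod p) * ρ + ((1 + t : ℕ) : ZMod p) := by
    rw [hW, ← hu2]
    push_cast
    ring
  have hf : ∀ g, byy q b c z g = bx q c z (i0 + (u : ZMod p) * ρ) → ¬ aL a b W g := by
    intro g hg hL
    obtain ⟨m, hm, rfl⟩ := ap_row h.hAP g
    obtain ⟨d, hd1, hdp, hd⟩ := exists_d W (i0 + (m : ZMod p) * ρ)
    have hd2 := (aL_iff h.hP hd hd1 hdp).1 hL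
    rcases (tie_iff h hu hm).1 hg with h3 | h3
    · have h4 := (tie1 h (n := u) (by omega) hu hk).hr
      have h5 : u - l = m := by omega
      rw [h5] at h4
      have h6 : ((d + (K - b) : ℕ) : ZMod p) = ((1 + t : ℕ) : ZMod p) := by
        rw [Nat.cast_add, Nat.cast_sub (by omega)]
        linear_combination hWu - hd - h4
      have h7 := (ZMod.natCast_eq_natCast_iff _ _ _).1 h6
      have h8 : d + (K - b) = 1 + t ∨ d + (K - b) = 1 + t + p := by
        rcases Nat.lt_or_ge (d + (K - b)) p with h9 | h9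
        · left
          exact Nat.ModEq.eq_of_lt_of_lt h7 h9 (by omega)
        · right
          have h10 : d + (K - b) - p ≡ 1 + t [MOD p] := by
            have : (d + (K - b) - p) + p ≡ 1 + t + 0 [MOD p] := by
              rw [Nat.sub_add_cancel h9, Nat.add_zero]
              exact h7
            have h11 : (d + (K - b) - p) + p ≡ (1 + t) + p [MOD p] := by
              refine this.trans ?_
              exact (Nat.ModEq.refl _).add ((Nat.modEq_zero_iff_dvd.2 (dvd_refl p)).symm)
            exact Nat.ModEq.add_right_cancel' p h11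
          have := Nat.ModEq.eq_of_lt_of_lt h10 (by omega) (by omega)
          omega
      omega
    · have h4 : q < p + l := by omega
      have h5 := hsec h4
      have h6 : (((q + u + 1 : ℕ)) : ZMod p) * ρ = 0 := by
        push_cast at hu3 ⊢
        linear_combination h5 + hu3
      have h7 : ((q + u + 1 : ℕ) : ZMod p) = 0 := by
        have h8 : ((q + u + 1 : ℕ) : ZMod p) * ρ = 0 * ρ := by rw [h6, zero_mul]
        exact h.hAP.1.mul_right_cancel h8
      obtain ⟨x, hx⟩ := (ZMod.natCast_eq_zero_iff _ _).1 h7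
      have h8 : x = 2 := by
        have h9 : p * 1 < p * x := by omega
        have h10 : p * x < p * 3 := by omega
        have := Nat.lt_of_mul_lt_mul_left h9
        have := Nat.lt_of_mul_lt_mul_left h10
        omega
      subst h8
      omega
  have h3 := right_two h h2b hK hba hE hX h2 hWu (by omega) (by omega) hf
  have h4 := hE.star h h2a h2b hK hba (rp_add_p (bx_rp h.hB _)) h3.ge
  have h5 := no_box_right h hu h4
  refine ⟨u, ?_, hu3, bw_ge h.hP hap hσ hρ (by omega) hu3, h5.1, h5.2⟩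
  by_contra hcon
  have h6 := (tie1 h (n := u) (by omega) hu hk).col h.hP hpq h.hB.hc
  exact h4 _ h6

/-- the contradiction if there is no box over the column of the left side of the last cluster -/
theorem fin1 (h : LS p q a b c z i0 ρ θ δ l k) (h2a : 2 * a < p) (h2b : 2 * b < p)
    (hK : KEm p q a b ρ θ l) (hba : b ≤ a) (hap : a.Coprime p) {σ : ℤ} (hσ : σ = 1 ∨ σ = -1)
    (hρ : ρ = (σ : ZMod p) * ((a : ZMod p) * b)) {K : ℕ} (hk : k = -(K : ℤ)) (hKb : b + 1 ≤ K)
    (hKa : K ≤ a) (hsec : q < p + l → (q : ZMod p) * ρ = -(a : ZMod p)) {t : ℕ}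
    (ht : t + 1 ≤ b) {W : ZMod p} {X1 ST : ZMod (p * q)}
    (hW : W = i0 + ((p - 1 : ℕ) : ZMod p) * ρ + ((a + 1 + t : ℕ) : ZMod p))
    (hE : Ext q a b z W X1 ST)
    (h2 : LA q a b z W (byy q b c z (i0 + ((p - 1 : ℕ) : ZMod p) * ρ)) =
      LA q a b z W X1 + 2) : False := by
  obtain ⟨u, hul, hu1, hbw, hp1, hm1⟩ := fin_two h h2a h2b hK hba hap hσ hρ hk hKb hKa hsec ht
    hW hE (by_rp h.hB _) h2.ge
  have h3 := hE.star h h2a h2b hK hba (by_rp h.hB _) h2.ge
  have h4 := no_box_left h h3
  have hl := h.hl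
  have hc := h.hB.hc
  refine pack_final h (w := u + 1) (by omega) (by omega) hbw ?_ ?_
  · intro t ht htl
    have := h4 t ht (by omega)
    omega
  · intro t ht htu
    exact hm1 t ht (by omega)

/-- the contradiction with ties of the second kind -/
theorem fin2 (h : LS p q a b c z i0 ρ θ δ l k) (h2a : 2 * a < p) (h2b : 2 * b < p)
    (hK : KEm p q a b ρ θ l) (hba : b ≤ a) (hap : a.Coprime p) {σ : ℤ} (hσ : σ = 1 ∨ σ = -1)
    (hρ : ρ = (σ : ZMod p) * ((a : ZMod p) * b)) {K : ℕ} (hk : k = -(K : ℤ)) (hKb : b + 1 ≤ K)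
    (hKa : K ≤ a) (hql : q < p + l) (hτ : (q : ZMod p) * ρ = -(a : ZMod p)) {t : ℕ}
    (ht : t + 1 ≤ b) {W : ZMod p} {X1 ST : ZMod (p * q)}
    (hW : W = i0 + ((p - 1 : ℕ) : ZMod p) * ρ + ((a + 1 + t : ℕ) : ZMod p))
    (hE : Ext q a b z W X1 ST) {X : ZMod (p * q)} (hX : rp p q X = 0)
    (h2 : LA q a b z W X1 + 2 ≤ LA q a b z W X) : False := by
  obtain ⟨haq, hbq, habq, h2a', h2b'⟩ := lt_mul_of h.hP
  obtain ⟨u, hul, hu1, hbw, hp1, hm1⟩ := fin_two h h2a h2b hK hba hap hσ hρ hk hKb hKa
    (fun _ => hτ) ht hW hE hX h2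
  have hl := h.hl
  have hc := h.hB.hc
  have hpq := h.hpq
  have ha := h.hP.ha
  have hab := h.hP.hab
  -- the index
  have hu : u + 1 + q = 2 * p := by
    have h6 : (((q + u + 1 : ℕ)) : ZMod p) * ρ = 0 := by
      push_cast at hu1 ⊢
      linear_combination hτ + hu1
    have h7 : ((q + u + 1 : ℕ) : ZMod p) = 0 := by
      have h8 : ((q + u + 1 : ℕ) : ZMod p) * ρ = 0 * ρ := by rw [h6, zero_mul]
      exact h.hAP.1.mul_right_cancel h8
    obtain ⟨x, hx⟩ := (ZMod.natCast_eq_zero_iff _ _).1 h7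
    have h8 : x = 2 := by
      have h9 : p * 1 < p * x := by omega
      have h10 : p * x < p * 3 := by omega
      have := Nat.lt_of_mul_lt_mul_left h9
      have := Nat.lt_of_mul_lt_mul_left h10
      omega
    subst h8
    omega
  have hlθ : (l : ZMod (p * q)) * θ =
      -((b * q + 1 : ℕ) : ZMod (p * q)) + ((2 * c : ℕ) : ZMod (p * q)) := by
    rw [h.hxl]
    push_cast
    ring
  have hqθ := q_theta h.hP h.hB h.hAP
  refine pack_final h (w := u + 1) (by omega) (by omega) hbw ?_ ?_
  · intro t ht htl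
    obtain ⟨g1, g2, g3⟩ := val_pos h ht (by omega)
    rcases Nat.lt_or_ge (u + t) p with h0 | h0
    · have := hp1 t ht h0
      omega
    · rcases lt_trichotomy t (q - l) with h1 | h1 | h1
      · -- mirror
        obtain ⟨f1, f2, f3⟩ := val_pos h (t := q - l - t) (by omega) (by omega)
        have h3 := hp1 (q - l - t) (by omega) (by omega)
        have h4 : ((((q - l - t : ℕ) : ZMod (p * q)) * θ).val : ZMod (p * q)) =
            ((q - l - t : ℕ) : ZMod (p * q)) * θ := ZMod.natCast_zmod_val _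
        set x := (((q - l - t : ℕ) : ZMod (p * q)) * θ).val with hx
        have h5 : (t : ZMod (p * q)) * θ =
            ((b * q + 1 - 2 * c + (p * q - x) : ℕ) : ZMod (p * q)) := by
          rw [Nat.cast_add, Nat.cast_sub (show 2 * c ≤ b * q + 1 by omega),
            Nat.cast_sub (show x ≤ p * q by omega), h4, ZMod.natCast_self,
            Nat.cast_sub (show t ≤ q - l by omega), Nat.cast_sub (show l ≤ q by omega)]
          linear_combination hqθ - hlθ
        have h6 : ((t : ZMod (p * q)) * θ).val = b * q + 1 - 2 * c + (p * q - x) := by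
          rw [h5, ZMod.val_natCast, Nat.mod_eq_of_lt (by omega)]
        omega
      · have h5 : (t : ZMod (p * q)) * θ = ((b * q + 1 - 2 * c : ℕ) : ZMod (p * q)) := by
          rw [Nat.cast_sub (show 2 * c ≤ b * q + 1 by omega), h1,
            Nat.cast_sub (show l ≤ q by omega)]
          linear_combination hqθ - hlθ
        have h6 : ((t : ZMod (p * q)) * θ).val = b * q + 1 - 2 * c := by
          rw [h5, ZMod.val_natCast, Nat.mod_eq_of_lt (by omega)]
        omega
      · obtain ⟨f1, f2, f3⟩ := val_pos h (t := t - (q - l)) (by omega) (by omega)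
        have h3 := hm1 (t - (q - l)) (by omega) (by omega)
        rw [f3] at h3
        have h4 : ((((t - (q - l) : ℕ) : ZMod (p * q)) * θ).val : ZMod (p * q)) =
            ((t - (q - l) : ℕ) : ZMod (p * q)) * θ := ZMod.natCast_zmod_val _
        set x := (((t - (q - l) : ℕ) : ZMod (p * q)) * θ).val with hx
        have h5 : (t : ZMod (p * q)) * θ =
            ((b * q + 1 - 2 * c + x : ℕ) : ZMod (p * q)) := by
          rw [Nat.cast_add, Nat.cast_sub (show 2 * c ≤ b * q + 1 by omega), h4,
            Nat.cast_sub (show q - l ≤ t by omega), Nat.cast_sub (show l ≤ q by omega)]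
          linear_combination hqθ - hlθ
        have h6 : ((t : ZMod (p * q)) * θ).val = b * q + 1 - 2 * c + x := by
          rw [h5, ZMod.val_natCast, Nat.mod_eq_of_lt (by omega)]
        omega
  · intro t ht htu
    exact hm1 t ht (by omega)

/-- the case `b < K` if the left side of the last cluster has no active partner -/
theorem case_big1 (h : LS p q a b c z i0 ρ θ δ l k) (h2a : 2 * a < p) (h2b : 2 * b < p)
    (hK : KEm p q a b ρ θ l) (hba : b ≤ a) (hap : a.Coprime p) {σ : ℤ} (hσ : σ = 1 ∨ σ = -1)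
    (hρ : ρ = (σ : ZMod p) * ((a : ZMod p) * b)) {K : ℕ} (hk : k = -(K : ℤ)) (hKb : b + 1 ≤ K)
    (hKa : K < a ∨ (K = a ∧ c = 1))
    (hf : ∀ f, bx q c z f = byy q b c z (i0 + ((p - 1 : ℕ) : ZMod p) * ρ) →
      ¬ aR a (i0 + ((p - 1 : ℕ) : ZMod p) * ρ + ((a + 1 + 0 : ℕ) : ZMod p)) f) : False := by
  obtain ⟨haq, hbq, habq, h2a', h2b'⟩ := lt_mul_of h.hP
  have hc := h.hB.hc
  have hl := h.hl
  have hpq := h.hpq
  have ha := h.hP.ha
  have hb := h.hP.hb
  have hab := h.hP.hab
  have hT := tie1 h (n := p - 1) (by omega) (by omega) hk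
  have hE := ext_of h h2a h2b hK hT hKa (t := 0) (by omega) (by omega) (by omega) (Or.inl rfl)
  have htwo := two_of_left h h2b hK hE rfl (by omega) (by omega)
    (top_row h h2b hK hba rfl (by omega)) hf
  rcases Nat.lt_or_ge q (p + l) with h1 | h1
  · have h2 := (tie_iff h (n := p - 1 - (q - l)) (m := p - 1) (by omega) (by omega)).2
      (Or.inr (by omega))
    have h3 := hE.star h h2a h2b hK hba (by_rp h.hB _) htwo.ge
      (i0 + ((p - 1 - (q - l) : ℕ) : ZMod p) * ρ)
    rw [h2] at h3
    apply h3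
    have : off (bx q c z (i0 + ((p - 1 - (q - l) : ℕ) : ZMod p) * ρ))
        (z (i0 + ((p - 1 - (q - l) : ℕ) : ZMod p) * ρ)) = c :=
      off_of (by omega) (by unfold bx; ring)
    omega
  · exact fin1 h h2a h2b hK hba hap hσ hρ hk hKb (by omega) (fun h2 => by omega) (t := 0)
      (by omega) rfl hE htwo

end

end Helper55.KV
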