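import Pool.Agent.Helper55.KV.Small

set_option autoImplicit false
set_option linter.unusedSectionVars false

/-!
# Ties in terms of indices, distances of the members of the progression
-/

namespace Helper55.KV

open Helper11.N1 Helper55.KE
open Helper11.N1.DECaux (ind ite_ind ind_and ind_congr ind_pos ind_neg)

section

variable {p q a b c : ℕ} [NeZero p] [NeZero q] {z : ZMod p → ZMod (p * q)} {i0 ρ : ZMod p}
  {θ : ZMod (p * q)} {δ l : ℕ} {k : ℤ}

theorem mul_theta_zero (h : LS p q a b c z i0 ρ θ δ l k) (m : ℤ) :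
    ((m : ℤ) : ZMod (p * q)) * θ = 0 ↔ (q : ℤ) ∣ m := by
  constructor
  · intro h1
    by_contra h2
    have h3 := congrArg (res p q) h1
    rw [map_mul, map_zero, res_int] at h3
    exact h.ndvd (X := 0) (m := m) (by rw [Int.cast_zero, ← h3]) h2 ⟨0, by ring⟩
  · rintro ⟨u, rfl⟩
    have h1 := q_theta h.hP h.hB h.hAP
    push_cast
    linear_combination (u : ZMod (p * q)) * h1

/-- which sides lie in the same block -/
theorem tie_iff (h : LS p q a b c z i0 ρ θ δ l k) {n m : ℕ} (hn : n < p) (hm : m < p) :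
    byy q b c z (i0 + (m : ZMod p) * ρ) = bx q c z (i0 + (n : ZMod p) * ρ) ↔
      (m + l = n ∨ m + l = n + q) := by
  rw [h.mg_iff hn hm]
  have hl := h.hl
  have hl0 := h.hl0
  have hpq := h.hpq
  have h1 : Mg b c θ n m ↔ ((m + l - n : ℤ) : ZMod (p * q)) * θ = 0 := by
    unfold Mg
    have h3 := h.hxl
    have h4 := h.castc
    constructor
    · intro h2
      push_cast at h3 h4 ⊢
      linear_combination h2 + h3 - h4
    · intro h2
      push_cast at h2 h3 h4 ⊢
      linear_combination h2 - h3 + h4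
  rw [h1, mul_theta_zero h]
  constructor
  · rintro ⟨u, hu⟩
    have h2 : u = 0 ∨ u = 1 := by
      have h3 : -(q : ℤ) < q * u := by omega
      have h4 : (q : ℤ) * u < 2 * q := by omega
      have hq0 : (0 : ℤ) < q := by omega
      have h5 : -1 < u := by nlinarith
      have h6 : u < 2 := by nlinarith
      omega
    rcases h2 with rfl | rfl
    · left
      omega
    · right
      omega
  · rintro (h2 | h2)
    · exact ⟨0, by omega⟩
    · exact ⟨1, by omega⟩

/-- the tie of the first kind -/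
theorem tie1 (h : LS p q a b c z i0 ρ θ δ l k) {n K : ℕ} (hln : l ≤ n) (hn : n < p)
    (hk : k = -(K : ℤ)) :
    Tie q b c z (i0 + (n : ZMod p) * ρ) (i0 + ((n - l : ℕ) : ZMod p) * ρ) K := by
  refine ⟨(tie_iff h hn (by omega)).2 (Or.inl (by omega)), ?_⟩
  have h1 := h.hrl
  rw [hk] at h1
  rw [Nat.cast_sub hln]
  push_cast at h1 ⊢
  linear_combination -h1

/-- the position of the cluster with the index `n + t` -/
theorem z_add (h : LS p q a b c z i0 ρ θ δ l k) {n t : ℕ} (hn : n + t < p) :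
    z (i0 + ((n + t : ℕ) : ZMod p) * ρ) =
      z (i0 + (n : ZMod p) * ρ) + (t : ZMod (p * q)) * θ := by
  rw [h.hAP.2 _ hn, h.hAP.2 _ (by omega)]
  push_cast
  ring

theorem val_pos (h : LS p q a b c z i0 ρ θ δ l k) {t : ℕ} (ht : 1 ≤ t) (htp : t < p) :
    p ≤ ((t : ZMod (p * q)) * θ).val ∧ ((t : ZMod (p * q)) * θ).val + p ≤ p * q ∧
      (-((t : ZMod (p * q)) * θ)).val = p * q - ((t : ZMod (p * q)) * θ).val := by
  have hpq := h.hpq
  have h1 : ((t : ZMod (p * q)) * θ) ≠ 0 := by
    intro h2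
    have h3 := (mul_theta_zero h (t : ℤ)).1 (by
      push_cast
      exact h2)
    have := Int.le_of_dvd (by omega) h3
    omega
  have h2 : p ∣ ((t : ZMod (p * q)) * θ).val := by
    rw [← rp_zero_iff, map_mul, rp_theta h.hP h.hB h.hAP, mul_zero]
  have h3 : 0 < ((t : ZMod (p * q)) * θ).val := by
    rcases Nat.eq_zero_or_pos ((t : ZMod (p * q)) * θ).val with h4 | h4
    · exact absurd ((ZMod.val_eq_zero _).1 h4) h1
    · exact h4
  have h4 := ZMod.val_lt ((t : ZMod (p * q)) * θ)
  have h5 := Nat.le_of_dvd h3 h2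
  have h6 : p ∣ p * q - ((t : ZMod (p * q)) * θ).val := Nat.dvd_sub (Dvd.intro q rfl) h2
  have h7 := Nat.le_of_dvd (by omega) h6
  refine ⟨h5, by omega, ?_⟩
  have : NeZero ((t : ZMod (p * q)) * θ) := ⟨h1⟩
  rw [ZMod.val_neg_of_ne_zero]

/-- distances if there is no box over the column right of the cluster `u` -/
theorem no_box_right (h : LS p q a b c z i0 ρ θ δ l k) {u : ℕ} (hu : u < p)
    (hno : ∀ f, ¬ off (bx q c z (i0 + (u : ZMod p) * ρ) + (p : ZMod (p * q))) (z f) < b * q) :
    (∀ t : ℕ, 1 ≤ t → u + t < p → b * q + p ≤ ((t : ZMod (p * q)) * θ).val + c) ∧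
      (∀ t : ℕ, 1 ≤ t → t ≤ u → b * q + p ≤ (-((t : ZMod (p * q)) * θ)).val + c) := by
  have hc := h.hB.hc
  constructor
  · intro t ht htu
    obtain ⟨h1, h2, h3⟩ := val_pos h ht (by omega)
    set x := ((t : ZMod (p * q)) * θ).val with hx
    have h4 : ((x : ℕ) : ZMod (p * q)) = (t : ZMod (p * q)) * θ := ZMod.natCast_zmod_val _
    have h5 := hno (i0 + ((u + t : ℕ) : ZMod p) * ρ)
    rw [off_of (n := x + c - p) (by omega) (by
      rw [z_add h htu, ← h4, Nat.cast_sub (by omega)]
      unfold bx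
      push_cast
      ring)] at h5
    omega
  · intro t ht htu
    obtain ⟨h1, h2, h3⟩ := val_pos h ht (by omega)
    set x := ((t : ZMod (p * q)) * θ).val with hx
    have h4 : ((x : ℕ) : ZMod (p * q)) = (t : ZMod (p * q)) * θ := ZMod.natCast_zmod_val _
    have h5 := hno (i0 + ((u - t : ℕ) : ZMod p) * ρ)
    have h6 := z_add h (n := u - t) (t := t) (by omega)
    have h7 : u - t + t = u := by omega
    rw [h7] at h6
    have h8 : ((p * q - x + c - p : ℕ) : ZMod (p * q)) = -(x : ZMod (p * q)) + c - p := by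
      rw [Nat.cast_sub (by omega), Nat.cast_add, Nat.cast_sub (by omega), ZMod.natCast_self]
      ring
    rw [off_of (n := p * q - x + c - p) (by omega) (by
      rw [h8, h4]
      unfold bx
      rw [h6]
      ring)] at h5
    rw [h3]
    omega

/-- distances if there is no box over the column of the left side of the last cluster -/
theorem no_box_left (h : LS p q a b c z i0 ρ θ δ l k)
    (hno : ∀ f, ¬ off (byy q b c z (i0 + ((p - 1 : ℕ) : ZMod p) * ρ)) (z f) < b * q) :
    ∀ t : ℕ, 1 ≤ t → t < p → b * q + 2 ≤ ((t : ZMod (p * q)) * θ).val + c := by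
  obtain ⟨haq, hbq, habq, h2a', h2b'⟩ := lt_mul_of h.hP
  have hc := h.hB.hc
  have ha := h.hP.ha
  have hab := h.hP.hab
  intro t ht htp
  obtain ⟨h1, h2, h3⟩ := val_pos h ht htp
  set x := ((t : ZMod (p * q)) * θ).val with hx
  have h4 : ((x : ℕ) : ZMod (p * q)) = (t : ZMod (p * q)) * θ := ZMod.natCast_zmod_val _
  by_contra hcon
  have h5 := hno (i0 + ((p - 1 - t : ℕ) : ZMod p) * ρ)
  have h6 := z_add h (n := p - 1 - t) (t := t) (by omega)
  have h7 : p - 1 - t + t = p - 1 := by omega
  rw [h7] at h6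
  have h8 : ((b * q + (1 - c) - x : ℕ) : ZMod (p * q)) =
      (b : ZMod (p * q)) * q + ((1 - c : ℕ) : ZMod (p * q)) - (x : ZMod (p * q)) := by
    rw [Nat.cast_sub (by omega)]
    push_cast
    ring
  rw [off_of (n := b * q + (1 - c) - x) (by omega) (by
    rw [h8, h4]
    unfold byy
    rw [h6]
    ring)] at h5
  omega

end

end Helper55.KV
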