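import Pool.Agent.Helper55.KV.Nbd

set_option autoImplicit false
set_option linter.unusedSectionVars false

/-!
# Levels with extreme values
-/

namespace Helper55.KV

open Helper11.N1 Helper55.KE
open Helper11.N1.DECaux (ind ite_ind ind_and ind_congr ind_pos ind_neg)

/-- extreme values at the level `W` -/
structure Ext {p : ℕ} (q a b : ℕ) [NeZero p] [NeZero q] (z : ZMod p → ZMod (p * q)) (W : ZMod p)
    (X1 ST : ZMod (p * q)) : Prop where
  hX : rp p q X1 = 0
  hs : LA q a b z W X1 + rhoS q a b z W ST = -2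

/-- the right side of `N` and the left side of `M` lie in the same block, class `K` -/
structure Tie {p : ℕ} (q b c : ℕ) (z : ZMod p → ZMod (p * q)) (N M : ZMod p) (K : ℕ) : Prop where
  hx : byy q b c z M = bx q c z N
  hr : M + (b : ZMod p) = N + (K : ZMod p)

section

variable {p q a b c : ℕ} [NeZero p] [NeZero q] {z : ZMod p → ZMod (p * q)} {i0 ρ : ZMod p}
  {θ : ZMod (p * q)} {δ l : ℕ} {k : ℤ}

theorem nn_le1 (h : LS p q a b c z i0 ρ θ δ l k) (h2b : 2 * b < p) (hK : KEm p q a b ρ θ l)
    {X : ZMod (p * q)} (hX : rp p q X = 0) (S : ZMod (p * q)) : NN q a b z X S ≤ 1 :=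
  nn_le fun _ _ hi hj => disj_blk h h2b hK hX hi hj

theorem flat_lo (h : LS p q a b c z i0 ρ θ δ l k) {X : ZMod (p * q)} (hX : rp p q X = 0)
    (W : ZMod p) (S : ZMod (p * q)) :
    -1 ≤ NN q a b z X S + LA q a b z W X + rhoS q a b z W S := by
  have h1 := h.hF X W S hX
  rw [ff_la h.hP, abs_le] at h1
  exact h1.1

theorem flat_up (h : LS p q a b c z i0 ρ θ δ l k) {X : ZMod (p * q)} (hX : rp p q X = 0)
    (W : ZMod p) (S : ZMod (p * q)) :
    NN q a b z X S + LA q a b z W X + rhoS q a b z W S ≤ 1 := by
  have h1 := h.hF X W S hX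
  rw [ff_la h.hP, abs_le] at h1
  exact h1.2

theorem Ext.rho (h : LS p q a b c z i0 ρ θ δ l k) (h2b : 2 * b < p) (hK : KEm p q a b ρ θ l)
    {W : ZMod p} {X1 ST : ZMod (p * q)} (hE : Ext q a b z W X1 ST) (S : ZMod (p * q)) :
    rhoS q a b z W ST ≤ rhoS q a b z W S := by
  have h1 := flat_lo h hE.hX W S
  have h2 := nn_le1 h h2b hK hE.hX S
  have h3 := hE.hs
  linarith

theorem Ext.la (h : LS p q a b c z i0 ρ θ δ l k) (h2b : 2 * b < p) (hK : KEm p q a b ρ θ l)
    {W : ZMod p} {X1 ST : ZMod (p * q)} (hE : Ext q a b z W X1 ST) {X : ZMod (p * q)}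
    (hX : rp p q X = 0) : LA q a b z W X1 ≤ LA q a b z W X := by
  have h1 := flat_lo h hX W ST
  have h2 := nn_le1 h h2b hK hX ST
  have h3 := hE.hs
  linarith

/-- columns with the minimal value are covered at rows with the minimal value -/
theorem Ext.cov (h : LS p q a b c z i0 ρ θ δ l k) {W : ZMod p} {X1 ST : ZMod (p * q)}
    (hE : Ext q a b z W X1 ST) {X S : ZMod (p * q)} (hX : rp p q X = 0)
    (h1 : LA q a b z W X = LA q a b z W X1) (h2 : rhoS q a b z W S = rhoS q a b z W ST) :
    ∃ g, box q a b z g X S := by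
  apply nn_ex
  have h3 := flat_lo h hX W S
  have h4 := hE.hs
  linarith

theorem Ext.two_rho (h : LS p q a b c z i0 ρ θ δ l k) {W : ZMod p} {X1 ST : ZMod (p * q)}
    (hE : Ext q a b z W X1 ST) {X : ZMod (p * q)} (hX : rp p q X = 0)
    (h1 : LA q a b z W X1 + 2 ≤ LA q a b z W X) (S : ZMod (p * q)) :
    rhoS q a b z W S ≤ rhoS q a b z W ST + 1 := by
  have h3 := flat_up h hX W S
  have h4 := hE.hs
  have h5 := nn_nonneg (q := q) (a := a) (b := b) (z := z) X S
  linarith

theorem Ext.two_box (h : LS p q a b c z i0 ρ θ δ l k) (h2b : 2 * b < p) (hK : KEm p q a b ρ θ l)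
    {W : ZMod p} {X1 ST : ZMod (p * q)} (hE : Ext q a b z W X1 ST) {X : ZMod (p * q)}
    (hX : rp p q X = 0) (h1 : LA q a b z W X1 + 2 ≤ LA q a b z W X) {S : ZMod (p * q)}
    {f : ZMod p} (hf : box q a b z f X S) : rhoS q a b z W S = rhoS q a b z W ST := by
  have h3 := flat_up h hX W S
  have h4 := hE.hs
  have h5 := nn_pos hf
  have h6 := hE.rho h h2b hK S
  linarith

/-- there is no box over a column with a large value -/
theorem Ext.star (h : LS p q a b c z i0 ρ θ δ l k) (h2a : 2 * a < p) (h2b : 2 * b < p)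
    (hK : KEm p q a b ρ θ l) (hba : b ≤ a) {W : ZMod p} {X1 ST : ZMod (p * q)}
    (hE : Ext q a b z W X1 ST) {X : ZMod (p * q)} (hX : rp p q X = 0)
    (h1 : LA q a b z W X1 + 2 ≤ LA q a b z W X) (f : ZMod p) : ¬ off X (z f) < b * q := by
  intro hf
  obtain ⟨haq, hbq, habq, h2a', h2b'⟩ := lt_mul_of h.hP
  have hq1 := h.hP.hq
  have hrow : ∀ s : ℕ, s < a * q →
      rhoS q a b z W (sc q z f + 1 + (s : ZMod (p * q))) = rhoS q a b z W ST := by
    intro s hs
    apply hE.two_box h h2b hK hX h1 (f := f)
    exact ⟨hf, by rw [off_nat _ (by omega)]; exact hs⟩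
  have hf1 : off X1 (z f) < b * q := by
    apply cover h h2a h2b hK hE.hX
    intro s hs
    exact hE.cov h hE.hX rfl (hrow s hs)
  have hbox : ∀ s : ℕ, s < a * q → box q a b z f X1 (sc q z f + 1 + (s : ZMod (p * q))) := by
    intro s hs
    exact ⟨hf1, by rw [off_nat _ (by omega)]; exact hs⟩
  have h0 : rhoS q a b z W (sc q z f + 1) = rhoS q a b z W ST := by
    have := hrow 0 (by omega)
    rwa [Nat.cast_zero, add_zero] at this
  have hT : rhoS q a b z W (sc q z f + a * q) = rhoS q a b z W ST := by
    have := hrow (a * q - 1) (by omega)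
    rw [Nat.cast_sub (by omega)] at this
    push_cast at this
    rw [show sc q z f + 1 + ((a : ZMod (p * q)) * q - 1) = sc q z f + a * q by ring] at this
    exact this
  have hBa : aB b W f := by
    by_contra hcon
    have h2 := rho_B h.hP h.hG W f
    rw [ind_neg hcon, h0, sub_zero] at h2
    obtain ⟨g, hg⟩ := hE.cov h hE.hX rfl h2.symm
    have h3 := hbox 0 (by omega)
    rw [Nat.cast_zero, add_zero] at h3
    have h4 := cov_step h h2b hK hE.hX hg h3
    subst h4
    have h5 : off (sc q z g + 1) (sc q z g) = p * q - 1 := off_of (by omega) (by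
      rw [Nat.cast_sub (by omega), ZMod.natCast_self]
      push_cast
      ring)
    have h6 := hg.2
    omega
  have hTa : aT a b W f := by
    by_contra hcon
    have h2 := rho_T h.hP h.hG W f
    rw [ind_neg hcon, hT, add_zero] at h2
    obtain ⟨g, hg⟩ := hE.cov h hE.hX rfl h2
    have h3 := hbox (a * q - 1) (by omega)
    rw [Nat.cast_sub (by omega)] at h3
    push_cast at h3
    rw [show sc q z f + 1 + ((a : ZMod (p * q)) * q - 1) = sc q z f + a * q by ring] at h3
    have h4 := cov_step h h2b hK hE.hX h3 hg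
    subst h4
    have h5 : off (sc q z f + 1) (sc q z f + (a : ZMod (p * q)) * (q : ZMod (p * q)) + 1) =
        a * q := off_of haq (by
      push_cast
      ring)
    have h6 := hg.2
    omega
  obtain ⟨d, hd1, hdp, hd⟩ := exists_d W f
  have h2 := (aB_iff hd hd1 hdp).1 hBa
  have h3 := (aT_iff' h.hP hd hd1 hdp).1 hTa
  omega

theorem Tie.zeq (hc : c ≤ 1) {N M : ZMod p} {K : ℕ} (hT : Tie q b c z N M K) :
    z M + ((2 * c : ℕ) : ZMod (p * q)) = z N + ((b * q + 1 : ℕ) : ZMod (p * q)) := by
  have h1 := hT.hx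
  unfold byy bx at h1
  rw [Nat.cast_sub hc] at h1
  push_cast at h1 ⊢
  linear_combination h1

theorem Tie.sceq (hc : c ≤ 1) {N M : ZMod p} {K : ℕ} (hT : Tie q b c z N M K) :
    sc q z M + ((2 * c : ℕ) : ZMod (p * q)) = sc q z N + ((K * q + 1 : ℕ) : ZMod (p * q)) := by
  have h1 := hT.zeq hc
  have h2 : e p q M + ((b * q : ℕ) : ZMod (p * q)) = e p q N + ((K * q : ℕ) : ZMod (p * q)) := by
    rw [← e_natCast, ← e_natCast, ← e_add, ← e_add, hT.hr]
  unfold sc
  push_cast at h1 h2 ⊢
  linear_combination h1 + h2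

/-- rows of the right partner -/
theorem Tie.row (hP : Par p q a b) (hc : c ≤ 1) {N M : ZMod p} {K : ℕ} (hT : Tie q b c z N M K)
    {σ : ℕ} (h1 : K * q + 2 ≤ σ + 2 * c) (h2 : σ + 2 * c ≤ K * q + 1 + a * q) :
    off (sc q z M + 1) (sc q z N + (σ : ZMod (p * q))) < a * q := by
  obtain ⟨haq, hbq, habq, h2a', h2b'⟩ := lt_mul_of hP
  have h3 := hT.sceq hc
  have h4 : off (sc q z M + 1) (sc q z N + (σ : ZMod (p * q))) =
      σ + 2 * c - K * q - 2 := off_of (by omega) (by
    rw [Nat.cast_sub (by omega), Nat.cast_sub (by omega)]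
    push_cast at h3 ⊢
    linear_combination -h3)
  omega

/-- the left side of the right partner -/
theorem Tie.col (hP : Par p q a b) (hpq : p < q) (hc : c ≤ 1) {N M : ZMod p} {K : ℕ}
    (hT : Tie q b c z N M K) : off (bx q c z N + (p : ZMod (p * q))) (z M) < b * q := by
  obtain ⟨haq, hbq, habq, h2a', h2b'⟩ := lt_mul_of hP
  have ha := hP.ha
  have hab := hP.hab
  have h3 := hT.zeq hc
  have h4 : off (bx q c z N + (p : ZMod (p * q))) (z M) = b * q + 1 - c - p :=
    off_of (by omega) (by
      rw [Nat.cast_sub (by omega), Nat.cast_sub (by omega)]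
      unfold bx
      push_cast at h3 ⊢
      linear_combination h3)
  omega

theorem Tie.ncol (hP : Par p q a b) (hc : c ≤ 1) {N M : ZMod p} {K : ℕ}
    (hT : Tie q b c z N M K) : ¬ off (bx q c z N) (z M) < b * q := by
  obtain ⟨haq, hbq, habq, h2a', h2b'⟩ := lt_mul_of hP
  have ha := hP.ha
  have hab := hP.hab
  have hq := hP.hq
  have h3 := hT.zeq hc
  have h4 : off (bx q c z N) (z M) = b * q + 1 - c :=
    off_of (by omega) (by
      rw [Nat.cast_sub (by omega)]
      unfold bx
      push_cast at h3 ⊢
      linear_combination h3)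
  omega

/-- no letters above the top of `N` up to the line at its right side -/
theorem gapE (h : LS p q a b c z i0 ρ θ δ l k) (h2a : 2 * a < p) (h2b : 2 * b < p)
    (hK : KEm p q a b ρ θ l) {N M : ZMod p} {K t : ℕ} (hT : Tie q b c z N M K)
    (hKa : K < a ∨ (K = a ∧ c = 1)) (htb : t + 1 ≤ b) (hta : t + 1 ≤ a) (htK : t + 1 ≤ K)
    (hf : t = 0 ∨ ∃ f, bx q c z f = byy q b c z N ∧
      f + (K : ZMod p) = N + ((a + b : ℕ) : ZMod p) ∧ K + t ≤ a)
    {σ : ℕ} (hσ1 : 1 ≤ σ) (hσ2 : σ + c + 1 ≤ (1 + t) * q) :
    rhoS q a b z (N + ((a + 1 + t : ℕ) : ZMod p)) (sc q z N + a * q + (σ : ZMod (p * q)) + 1) =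
      rhoS q a b z (N + ((a + 1 + t : ℕ) : ZMod p)) (sc q z N + a * q + (σ : ZMod (p * q))) := by
  obtain ⟨haq, hbq, habq, h2a', h2b'⟩ := lt_mul_of h.hP
  have hpq := h.hpq
  have ha := h.hP.ha
  have hab := h.hP.hab
  have hc := h.hB.hc
  have h2aq : 2 * (a * q) < p * q := by
    calc 2 * (a * q) = (2 * a) * q := by ring
      _ < p * q := Nat.mul_lt_mul_of_pos_right h2a (by omega)
  have htq1 : (1 + t) * q ≤ b * q := Nat.mul_le_mul_right q (by omega)
  have htq2 : (1 + t) * q ≤ a * q := Nat.mul_le_mul_right q (by omega)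
  have htq3 : (1 + t) * q ≤ K * q := Nat.mul_le_mul_right q (by omega)
  have hKq : K * q ≤ a * q := Nat.mul_le_mul_right q (by omega)
  set W := N + ((a + 1 + t : ℕ) : ZMod p) with hW
  set S := sc q z N + a * q + (σ : ZMod (p * q)) with hS
  set X := S - e p q W with hX
  have heW : e p q W = e p q N + (((a + 1 + t) * q : ℕ) : ZMod (p * q)) := e_row hW
  have hdq : (a + 1 + t) * q = a * q + (1 + t) * q := by ring
  -- the position of `N`
  have hzN : z N = X + 1 + (((1 + t) * q - σ - 1 : ℕ) : ZMod (p * q)) := by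
    rw [Nat.cast_sub (by omega), Nat.cast_sub (by omega), hX, hS, heW, hdq]
    unfold sc
    push_cast
    ring
  have hoN : off (X + 1) (z N) = (1 + t) * q - σ - 1 := off_of (by omega) hzN
  apply rho_const h.hP
  · intro e' he heS
    obtain ⟨f, hf1, hfp, hf⟩ := exists_d W e'
    have hf2 := (aT_iff' h.hP hf hf1 hfp).1 he
    have hef := e_row (q := q) hf
    have hfq : (f - a) * q = f * q - a * q := Nat.sub_mul _ _ _
    have hfq1 : 1 * q ≤ (f - a) * q := Nat.mul_le_mul_right q (by omega)
    have hfq2 : (f - a) * q ≤ b * q := Nat.mul_le_mul_right q (by omega)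
    have hze : z e' = X + 1 + (((f - a) * q - 1 : ℕ) : ZMod (p * q)) := by
      rw [Nat.cast_sub (by omega), hfq, Nat.cast_sub (by omega), hX, ← heS, hef]
      unfold sc
      push_cast
      ring
    have hoe : off (X + 1) (z e') = (f - a) * q - 1 := off_of (by omega) hze
    have hne : e' ≠ N := by
      rintro rfl
      have h1 : ((0 : ℕ) : ZMod (p * q)) = (σ : ZMod (p * q)) := by
        rw [hS] at heS
        push_cast
        linear_combination heS
      have := nat_eq (by omega) (by omega) h1
      omega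
    have hb1 : box q a b z e' (X + 1) (sc q z N + a * q) := by
      refine ⟨by omega, ?_⟩
      have : off (sc q z e' + 1) (sc q z N + (a : ZMod (p * q)) * (q : ZMod (p * q))) =
          a * q - σ - 1 := off_of (by omega) (by
        rw [Nat.cast_sub (by omega), Nat.cast_sub (by omega)]
        rw [hS] at heS
        push_cast
        linear_combination -heS)
      omega
    have hb2 : box q a b z N (X + 1) (sc q z N + a * q) := by
      refine ⟨by omega, ?_⟩
      have : off (sc q z N + 1) (sc q z N + (a : ZMod (p * q)) * (q : ZMod (p * q))) =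
          a * q - 1 := off_of (by omega) (by
        rw [Nat.cast_sub (by omega)]
        push_cast
        ring)
      omega
    obtain ⟨h1, h2⟩ := disj_gen h h2b hK hne hb1 hb2
    rcases h2 with h2 | h2
    · rw [← h2, off_self] at hoe
      omega
    · rw [← h2, off_self] at hoN
      omega
  · intro e' he heS
    obtain ⟨d, hd1, hdp, hd⟩ := exists_d W e'
    have hd2 := (aB_iff hd hd1 hdp).1 he
    have hed := e_row (q := q) hd
    have hdq1 : 1 * q ≤ d * q := Nat.mul_le_mul_right q (by omega)
    have hdq2 : d * q ≤ b * q := Nat.mul_le_mul_right q (by omega)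
    -- the position of `e'` relative to `N`
    have hze : z e' + (((1 + t) * q : ℕ) : ZMod (p * q)) =
        z N + ((σ + d * q : ℕ) : ZMod (p * q)) := by
      have h1 : z e' = S - e p q e' := by rw [← heS]; unfold sc; ring
      have h2 : e p q e' = e p q W - ((d * q : ℕ) : ZMod (p * q)) := by rw [hed]; ring
      rw [h1, h2, heW, hS, hdq]
      unfold sc
      push_cast
      ring
    have hbe : off (sc q z e' + 1) (S + 1) < a * q := by
      rw [heS, off_self]
      omega
    rcases lt_trichotomy (σ + d * q) ((1 + t) * q) with hlt | heq | hgt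
    · -- left of `N`: overlap with the left neighbour
      rcases hf with h0 | ⟨f, hf1, hf2, hf3⟩
      · subst h0
        omega
      · have hres : (p : ℕ) ∣ (1 + t) * q - (σ + d * q) := by
          have h1 := congrArg (rp p q) hze
          rw [map_add, map_add, h.hB.hx, h.hB.hx, map_natCast, map_natCast] at h1
          have h2 : (((1 + t) * q : ℕ) : ZMod p) = ((σ + d * q : ℕ) : ZMod p) :=
            add_left_cancel h1
          rw [← ZMod.natCast_eq_zero_iff, Nat.cast_sub hlt.le, h2, sub_self]
        have hv := Nat.le_of_dvd (by omega) hres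
        set v := (1 + t) * q - (σ + d * q) with hv'
        have hXL : byy q b c z N = z N - ((b * q + (1 - c) : ℕ) : ZMod (p * q)) := by
          unfold byy
          push_cast
          ring
        have hrX : rp p q (byy q b c z N) = 0 := by_rp h.hB N
        have hoe : off (byy q b c z N) (z e') = b * q + (1 - c) - v := off_of (by omega) (by
          rw [hXL, Nat.cast_sub (by omega), hv', Nat.cast_sub hlt.le]
          linear_combination hze)
        have hof : off (byy q b c z N) (z f) = c := off_of (by omega) (by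
          rw [← hf1]
          unfold bx
          ring)
        have hscf : sc q z f + ((K * q + 1 : ℕ) : ZMod (p * q)) =
            sc q z N + ((a * q + 2 * c : ℕ) : ZMod (p * q)) := by
          have h1 : e p q f + ((K * q : ℕ) : ZMod (p * q)) =
              e p q N + (((a + b) * q : ℕ) : ZMod (p * q)) := by
            rw [← e_natCast, ← e_natCast, ← e_add, ← e_add, hf2]
          unfold bx byy at hf1
          rw [Nat.cast_sub hc] at hf1
          unfold sc
          push_cast at h1 hf1 ⊢
          linear_combination h1 + hf1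
        have hKt : K * q + t * q ≤ a * q := by
          calc K * q + t * q = (K + t) * q := by ring
            _ ≤ a * q := Nat.mul_le_mul_right q hf3
        have htq : (1 + t) * q = t * q + q := by ring
        have hrowf : off (sc q z f + 1) (S + 1) = K * q + σ + 1 - 2 * c := off_of (by omega) (by
          rw [Nat.cast_sub (by omega), hS]
          push_cast at hscf ⊢
          linear_combination -hscf)
        have hbf : box q a b z f (byy q b c z N) (S + 1) := ⟨by omega, by omega⟩
        have hbe' : box q a b z e' (byy q b c z N) (S + 1) := ⟨by omega, hbe⟩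
        have hef := disj_blk h h2b hK hrX hbf hbe'
        rw [hef, heS, off_self] at hrowf
        omega
    · -- the same position
      have h1 : z e' = z N := by
        rw [heq] at hze
        exact add_right_cancel hze
      have h2 : e' = N := gen_res p q h.hG (by rw [h1])
      rw [h2, hS] at heS
      have h3 : ((0 : ℕ) : ZMod (p * q)) = ((a * q + σ : ℕ) : ZMod (p * q)) := by
        push_cast
        linear_combination heS
      have := nat_eq (by omega) (by omega) h3
      omega
    · -- right of `N`: overlap with the right partner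
      have hres : (p : ℕ) ∣ (σ + d * q) - (1 + t) * q := by
        have h1 := congrArg (rp p q) hze
        rw [map_add, map_add, h.hB.hx, h.hB.hx, map_natCast, map_natCast] at h1
        have h2 : (((1 + t) * q : ℕ) : ZMod p) = ((σ + d * q : ℕ) : ZMod p) :=
          add_left_cancel h1
        rw [← ZMod.natCast_eq_zero_iff, Nat.cast_sub hgt.le, h2, sub_self]
      have hv := Nat.le_of_dvd (by omega) hres
      have hrX : rp p q (bx q c z N + (p : ZMod (p * q))) = 0 := rp_add_p (bx_rp h.hB N)
      have hoe : off (bx q c z N + (p : ZMod (p * q))) (z e') =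
          σ + d * q - (1 + t) * q + c - p := off_of (by omega) (by
        rw [Nat.cast_sub (by omega), Nat.cast_add, Nat.cast_sub hgt.le]
        unfold bx
        linear_combination hze)
      have hbe' : box q a b z e' (bx q c z N + (p : ZMod (p * q))) (S + 1) := ⟨by omega, hbe⟩
      have hbM : box q a b z M (bx q c z N + (p : ZMod (p * q))) (S + 1) := by
        refine ⟨hT.col h.hP hpq hc, ?_⟩
        have h1 := hT.row h.hP hc (σ := a * q + σ + 1) (by omega) (by omega)
        have h2 : sc q z N + ((a * q + σ + 1 : ℕ) : ZMod (p * q)) = S + 1 := by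
          rw [hS]
          push_cast
          ring
        rwa [h2] at h1
      have heM := disj_blk h h2b hK hrX hbe' hbM
      have h3 := hT.sceq hc
      rw [← heM, heS, hS] at h3
      have h4 : ((a * q + σ + 2 * c : ℕ) : ZMod (p * q)) = ((K * q + 1 : ℕ) : ZMod (p * q)) := by
        push_cast at h3 ⊢
        linear_combination h3
      have h5 := nat_eq (by omega) (by omega) h4
      rcases hKa with h6 | ⟨h6, h7⟩
      · have : K * q + q ≤ a * q := by
          calc K * q + q = (K + 1) * q := by ring
            _ ≤ a * q := Nat.mul_le_mul_right q (by omega)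
        omega
      · subst h6
        omega

/-- the column of the right side of `N` is not covered above the box of `N` -/
theorem nn_top (h : LS p q a b c z i0 ρ θ δ l k) (h2a : 2 * a < p) (h2b : 2 * b < p)
    (hK : KEm p q a b ρ θ l) {N M : ZMod p} {K : ℕ} (hT : Tie q b c z N M K)
    (hKa : K < a ∨ (K = a ∧ c = 1)) {σ : ℕ} (hσ1 : 1 ≤ σ) (hσ2 : σ + 2 * c ≤ K * q + 1) :
    NN q a b z (bx q c z N) (sc q z N + a * q + (σ : ZMod (p * q))) = 0 := by
  obtain ⟨haq, hbq, habq, h2a', h2b'⟩ := lt_mul_of h.hP
  have hpq := h.hpq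
  have ha := h.hP.ha
  have hab := h.hP.hab
  have hc := h.hB.hc
  have hKq : K * q ≤ a * q := Nat.mul_le_mul_right q (by omega)
  have h2aq : 2 * (a * q) < p * q := by
    calc 2 * (a * q) = (2 * a) * q := by ring
      _ < p * q := Nat.mul_lt_mul_of_pos_right h2a (by omega)
  have h0 := nn_nonneg (q := q) (a := a) (b := b) (z := z) (bx q c z N)
    (sc q z N + a * q + (σ : ZMod (p * q)))
  by_contra hcon
  obtain ⟨g, hg⟩ := nn_ex (q := q) (a := a) (b := b) (z := z) (X := bx q c z N)
    (S := sc q z N + a * q + (σ : ZMod (p * q))) (by omega)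
  have hbM : box q a b z M (bx q c z N + (p : ZMod (p * q)))
      (sc q z N + a * q + (σ : ZMod (p * q))) := by
    refine ⟨hT.col h.hP hpq hc, ?_⟩
    have h1 := hT.row h.hP hc (σ := a * q + σ) (by
      rcases hKa with h6 | ⟨h6, h7⟩
      · have : K * q + q ≤ a * q := by
          calc K * q + q = (K + 1) * q := by ring
            _ ≤ a * q := Nat.mul_le_mul_right q (by omega)
        omega
      · subst h6
        omega) (by omega)
    have h2 : sc q z N + ((a * q + σ : ℕ) : ZMod (p * q)) =
        sc q z N + a * q + (σ : ZMod (p * q)) := by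
      push_cast
      ring
    rwa [h2] at h1
  by_cases h1 : off (bx q c z N + (p : ZMod (p * q))) (z g) < b * q
  · have h2 := disj_blk h h2b hK (rp_add_p (bx_rp h.hB N)) ⟨h1, hg.2⟩ hbM
    subst h2
    exact hT.ncol h.hP hc hg.1
  · have h2 := col_next h.hP h.hB (bx_rp h.hB N) hg.1 h1
    have h3 := bx_inj h.hG h2
    subst h3
    have h4 : off (sc q z g + 1) (sc q z g + (a : ZMod (p * q)) * (q : ZMod (p * q)) +
        (σ : ZMod (p * q))) = a * q + σ - 1 := off_of (by omega) (by
      rw [Nat.cast_sub (by omega)]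
      push_cast
      ring)
    have h5 := hg.2
    omega

/-- the extreme values at the levels above the box of `N` -/
theorem ext_of (h : LS p q a b c z i0 ρ θ δ l k) (h2a : 2 * a < p) (h2b : 2 * b < p)
    (hK : KEm p q a b ρ θ l) {N M : ZMod p} {K t : ℕ} (hT : Tie q b c z N M K)
    (hKa : K < a ∨ (K = a ∧ c = 1)) (htb : t + 1 ≤ b) (hta : t + 1 ≤ a) (htK : t + 1 ≤ K)
    (hf : t = 0 ∨ ∃ f, bx q c z f = byy q b c z N ∧
      f + (K : ZMod p) = N + ((a + b : ℕ) : ZMod p) ∧ K + t ≤ a) :
    Ext q a b z (N + ((a + 1 + t : ℕ) : ZMod p)) (bx q c z N + (p : ZMod (p * q)))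
      (sc q z N + a * q) := by
  obtain ⟨haq, hbq, habq, h2a', h2b'⟩ := lt_mul_of h.hP
  have hpq := h.hpq
  have ha := h.hP.ha
  have hab := h.hP.hab
  have hc := h.hB.hc
  have htq0 : 1 * q ≤ (1 + t) * q := Nat.mul_le_mul_right q (by omega)
  have htq3 : (1 + t) * q ≤ K * q := Nat.mul_le_mul_right q (by omega)
  set W := N + ((a + 1 + t : ℕ) : ZMod p) with hW
  have hconst : ∀ n : ℕ, 1 + n + c ≤ (1 + t) * q →
      rhoS q a b z W (sc q z N + a * q + ((1 + n : ℕ) : ZMod (p * q))) =
        rhoS q a b z W (sc q z N + a * q + 1) := by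
    intro n
    induction n with
    | zero => intro _; rw [Nat.add_zero, Nat.cast_one]
    | succ n ih =>
      intro hn
      have h1 := gapE h h2a h2b hK hT hKa htb hta htK hf (σ := 1 + n) (by omega) (by omega)
      have e1 : sc q z N + a * q + ((1 + (n + 1) : ℕ) : ZMod (p * q)) =
          sc q z N + a * q + ((1 + n : ℕ) : ZMod (p * q)) + 1 := by push_cast; ring
      rw [e1, h1]
      exact ih (by omega)
  have hline : bx q c z N + e p q W =
      sc q z N + a * q + (((1 + t) * q - c : ℕ) : ZMod (p * q)) := by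
    have h1 := e_row (q := q) hW
    have h2 : (a + 1 + t) * q = a * q + (1 + t) * q := by ring
    rw [h1, h2, Nat.cast_sub (by omega)]
    unfold bx sc
    push_cast
    ring
  have h1 := hconst ((1 + t) * q - c - 1) (by omega)
  have e1 : 1 + ((1 + t) * q - c - 1) = (1 + t) * q - c := by omega
  rw [e1] at h1
  have h2 := nn_top h h2a h2b hK hT hKa (σ := (1 + t) * q - c) (by omega) (by omega)
  have h3 : LA q a b z W (bx q c z N) = - rhoS q a b z W (sc q z N + a * q + 1) := by
    unfold LA
    rw [hline, h2, h1]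
    ring
  have hT1 := rho_T h.hP h.hG W N
  have hTa : aT a b W N := (aT_iff' h.hP hW (by omega) (by omega)).2 ⟨by omega, by omega⟩
  rw [ind_pos hTa] at hT1
  have hKV := kv_merge (a := a) h.hG hT.hx W
  have hR : ¬ aR a W N := by
    rw [aR_iff hW (by omega) (by omega)]
    omega
  have hL : aL a b W M := by
    have hM : W = M + ((a + 1 + t + b - K : ℕ) : ZMod p) := by
      rw [Nat.cast_sub (by omega), hW]
      push_cast
      linear_combination -hT.hr
    exact (aL_iff h.hP hM (by omega) (by omega)).2 ⟨by omega, by omega⟩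
  rw [ind_neg hR, ind_pos hL] at hKV
  have h4 := la_jump h.hP h.hB (bx_rp h.hB N) W (a := a)
  refine ⟨rp_add_p (bx_rp h.hB N), ?_⟩
  rw [h4, hKV, h3, hT1]
  ring

end

end Helper55.KV
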