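import Pool.Agent.Helper55.KV.Arith
import Pool.Agent.Helper25.KV.Cnt
import Pool.Agent.Helper25.FLT.B3

set_option autoImplicit false
set_option linter.unusedSectionVars false

/-!
# No block flat progression with a tie of positive class and no other overlap vectors
-/

namespace Helper55.KV

open Helper11.N1 Helper55.KE
open Helper11.N1.DECaux (ind ite_ind ind_and ind_congr ind_pos ind_neg)

section

variable {p q a b c : ℕ} [NeZero p] [NeZero q] {z : ZMod p → ZMod (p * q)} {i0 ρ : ZMod p}
  {θ : ZMod (p * q)} {δ l : ℕ} {k : ℤ}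

/-- the difference of the rows of tied boxes of the second kind -/
theorem row_S' (h : LS p q a b c z i0 ρ θ δ l k) {K : ℕ} (hk : k = -(K : ℤ))
    (hτ : (q : ZMod p) * ρ = (a : ZMod p)) {m : ℕ} (hm : q - l ≤ m) :
    i0 + ((m - (q - l) : ℕ) : ZMod p) * ρ + (a : ZMod p) + (K : ZMod p) =
      i0 + (m : ZMod p) * ρ + (b : ZMod p) := by
  have hl := h.hl
  have hpq := h.hpq
  have h1 := h.hrl
  rw [hk] at h1
  rw [Nat.cast_sub hm, Nat.cast_sub (show l ≤ q by omega)]
  push_cast at h1 ⊢
  linear_combination h1 - hτ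

/-- a tie of positive class and no other overlap vectors -/
theorem kv_pos_false (h : LS p q a b c z i0 ρ θ δ l k) (h2a : 2 * a < p) (h2b : 2 * b < p)
    (hap : a.Coprime p)
    (hρ : ρ = (a : ZMod p) * b ∨ ρ = -((a : ZMod p) * b)) (hl2 : 2 ≤ l) {K : ℕ}
    (hk : k = -(K : ℤ)) (hK1 : 1 ≤ K) (hKa : K < a ∨ (c = 1 ∧ K = a))
    (hNE : ∀ n m : ZMod p, z m - b * q = z n + ((1 - 2 * (c : ℤ) : ℤ) : ZMod (p * q)) →
      n - m ≠ b) (hKE : KEm p q a b ρ θ l) : False := by
  have hc := h.hB.hc
  have hl := h.hl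
  have hl0 := h.hl0
  have hpq := h.hpq
  have ha := h.hP.ha
  have hb := h.hP.hb
  have hab := h.hP.hab
  have hT := tie1 h (n := p - 1) (by omega) (by omega) hk
  have hKa' : K < a ∨ (K = a ∧ c = 1) := by
    rcases hKa with h1 | ⟨h1, h2⟩
    · exact Or.inl h1
    · exact Or.inr ⟨h2, h1⟩
  rcases Nat.lt_or_ge a b with hlt | hba
  · exact case_ab h h2a h2b hKE hlt hT hK1 hKa'
  obtain ⟨σ, hσ, hρσ⟩ : ∃ σ : ℤ, (σ = 1 ∨ σ = -1) ∧ ρ = (σ : ZMod p) * ((a : ZMod p) * b) := by
    rcases hρ with h1 | h1
    · exact ⟨1, Or.inl rfl, by rw [h1]; push_cast; ring⟩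
    · exact ⟨-1, Or.inr rfl, by rw [h1]; push_cast; ring⟩
  have hqρ : (q : ZMod p) * ρ = (a : ZMod p) ∨ (q : ZMod p) * ρ = -(a : ZMod p) := by
    have h1 := Helper25.FLT.LS.bq h
    have h2 : (q : ZMod p) * ρ = (σ : ZMod p) * a * ((-(1 - 2 * (c : ℤ)) : ℤ) : ZMod p) := by
      rw [← h1, hρσ]
      ring
    rw [h2]
    rcases hσ with rfl | rfl <;> rcases (by omega : c = 0 ∨ c = 1) with rfl | rfl
    · right; push_cast; ring
    · left; push_cast; ring
    · left; push_cast; ring
    · right; push_cast; ring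
  -- the second partner of the last cluster
  have hpart : ∀ f, bx q c z f = byy q b c z (i0 + ((p - 1 : ℕ) : ZMod p) * ρ) →
      q < p + l ∧ f = i0 + ((p - 1 - (q - l) : ℕ) : ZMod p) * ρ := by
    intro f hf
    obtain ⟨n, hn, rfl⟩ := ap_row h.hAP f
    rcases (tie_iff h hn (show p - 1 < p by omega)).1 hf.symm with h1 | h1
    · omega
    · refine ⟨by omega, ?_⟩
      have : n = p - 1 - (q - l) := by omega
      rw [this]
  rcases lt_trichotomy K b with hKb | hKb | hKb
  · -- `K < b`
    apply case_Kb h h2a h2b hKE hba hT hK1 hKb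
    intro f hf hR
    obtain ⟨hql, rfl⟩ := hpart f hf
    rcases hqρ with hτ | hτ
    · have h1 := row_S' h hk hτ (m := p - 1) (by omega)
      have hd : i0 + ((p - 1 : ℕ) : ZMod p) * ρ + ((a + 1 + 0 : ℕ) : ZMod p) =
          i0 + ((p - 1 - (q - l) : ℕ) : ZMod p) * ρ + ((2 * a + 1 + K - b : ℕ) : ZMod p) := by
        rw [Nat.cast_sub (show b ≤ 2 * a + 1 + K by omega)]
        push_cast
        linear_combination -h1
      have := (aR_iff hd (by omega) (by omega)).1 hR
      omega
    · have h1 := row_S h hk (by omega) hτ (m := p - 1) (by omega)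
      have hd : i0 + ((p - 1 : ℕ) : ZMod p) * ρ + ((a + 1 + 0 : ℕ) : ZMod p) =
          i0 + ((p - 1 - (q - l) : ℕ) : ZMod p) * ρ + ((p + K + 1 - b : ℕ) : ZMod p) := by
        have h2 : ((p : ℕ) : ZMod p) = 0 := ZMod.natCast_self p
        rw [h1, Nat.cast_sub (show b ≤ p + K + 1 by omega),
          Nat.cast_sub (show K ≤ a + b by omega)]
        push_cast
        linear_combination -h2
      have := (aR_iff hd (by omega) (by omega)).1 hR
      omega
  · -- `K = b`
    have h1 := h.hrl
    rw [hk, hKb] at h1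
    have h2 : (l : ZMod p) * ρ = 0 * ρ := by
      rw [h1]
      push_cast
      ring
    have h3 := h.hAP.1.mul_right_cancel h2
    have h4 := Nat.le_of_dvd hl0 ((ZMod.natCast_eq_zero_iff _ _).1 h3)
    omega
  · -- `K > b`
    rcases Nat.lt_or_ge q (p + l) with hql | hql
    · rcases hqρ with hτ | hτ
      · rcases Nat.lt_or_ge (2 * a + K) (p + b) with h3 | h3
        · apply case_big1 h h2a h2b hKE hba hap hσ hρσ hk hKb hKa'
          intro f hf hR
          obtain ⟨hql, rfl⟩ := hpart f hf
          have h1 := row_S' h hk hτ (m := p - 1) (by omega)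
          have hd : i0 + ((p - 1 : ℕ) : ZMod p) * ρ + ((a + 1 + 0 : ℕ) : ZMod p) =
              i0 + ((p - 1 - (q - l) : ℕ) : ZMod p) * ρ + ((2 * a + 1 + K - b : ℕ) : ZMod p) := by
            rw [Nat.cast_sub (show b ≤ 2 * a + 1 + K by omega)]
            push_cast
            linear_combination -h1
          have := (aR_iff hd (by omega) (by omega)).1 hR
          omega
        · exact Helper25.KV.cnt_false h h2b hKE hl2 (by omega)
      · rcases hKa with hKa | ⟨_, hKa⟩
        · exact chain_false h h2a h2b hKE hba hap hσ hρσ hk hKb hKa hql hτ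
        · -- the second tie has the class `0`
          have h1 := row_S h hk (by omega) hτ (m := p - 1) (by omega)
          have h2 := (tie_iff h (n := p - 1 - (q - l)) (m := p - 1) (by omega) (by omega)).2
            (Or.inr (by omega))
          refine hNE (i0 + ((p - 1 - (q - l) : ℕ) : ZMod p) * ρ)
            (i0 + ((p - 1 : ℕ) : ZMod p) * ρ) ?_ ?_
          · have h4 := h.castc
            unfold byy bx at h2
            rw [h4]
            linear_combination h2
          · rw [h1, hKa]
            have : a + b - a = b := by omega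
            rw [this]
            ring
    · apply case_big1 h h2a h2b hKE hba hap hσ hρσ hk hKb hKa'
      intro f hf hR
      obtain ⟨hql', _⟩ := hpart f hf
      omega

end

end Helper55.KV
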