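import Pool.Agent.Helper55.KV.Base

set_option autoImplicit false
set_option linter.unusedSectionVars false

/-!
# Letters at one level, the function of the ordinate inside a box, covered columns
-/

namespace Helper55.KV

open Helper11.N1 Helper55.KE
open Helper11.N1.DECaux (ind ite_ind ind_and ind_congr ind_pos ind_neg)

section act

variable {p q a b : ℕ} [NeZero p]

theorem val_sub {W j : ZMod p} {d : ℕ} (hW : W = j + (d : ZMod p)) {x : ℕ} (hx : x ≤ d)
    (hd : d < p + x) : (W - (x : ZMod p) - j).val = d - x := by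
  have h1 : W - (x : ZMod p) - j = ((d - x : ℕ) : ZMod p) := by
    rw [hW, Nat.cast_sub hx]
    ring
  rw [h1, ZMod.val_natCast, Nat.mod_eq_of_lt (by omega)]

theorem val_sub' {W j : ZMod p} {d : ℕ} (hW : W = j + (d : ZMod p)) {x : ℕ} (hx : d < x)
    (hd : x ≤ p + d) : (W - (x : ZMod p) - j).val = p + d - x := by
  have h1 : W - (x : ZMod p) - j = ((p + d - x : ℕ) : ZMod p) := by
    rw [hW, Nat.cast_sub hd, Nat.cast_add, ZMod.natCast_self]
    ring
  rw [h1, ZMod.val_natCast, Nat.mod_eq_of_lt (by omega)]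

theorem aR_iff {W j : ZMod p} {d : ℕ} (hW : W = j + (d : ZMod p)) (hd : 1 ≤ d) (hdp : d ≤ p) :
    aR a W j ↔ d ≤ a := by
  unfold aR
  have h := val_sub hW hd (by omega)
  rw [Nat.cast_one] at h
  rw [h]
  omega

theorem aB_iff {W j : ZMod p} {d : ℕ} (hW : W = j + (d : ZMod p)) (hd : 1 ≤ d) (hdp : d ≤ p) :
    aB b W j ↔ d ≤ b := by
  unfold aB
  have h := val_sub hW hd (by omega)
  rw [Nat.cast_one] at h
  rw [h]
  omega

theorem aL_iff (hP : Par p q a b) {W j : ZMod p} {d : ℕ} (hW : W = j + (d : ZMod p))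
    (hd : 1 ≤ d) (hdp : d ≤ p) : aL a b W j ↔ b + 1 ≤ d ∧ d ≤ a + b := by
  unfold aL
  have hab := hP.hab
  have e1 : W - (b : ZMod p) - 1 - j = W - ((b + 1 : ℕ) : ZMod p) - j := by push_cast; ring
  rw [e1]
  rcases Nat.lt_or_ge d (b + 1) with h1 | h1
  · rw [val_sub' hW h1 (by omega)]
    omega
  · rw [val_sub hW h1 (by omega)]
    omega

theorem aT_iff' (hP : Par p q a b) {W j : ZMod p} {d : ℕ} (hW : W = j + (d : ZMod p))
    (hd : 1 ≤ d) (hdp : d ≤ p) : aT a b W j ↔ a + 1 ≤ d ∧ d ≤ a + b := by
  unfold aT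
  have hab := hP.hab
  have e1 : W - (a : ZMod p) - 1 - j = W - ((a + 1 : ℕ) : ZMod p) - j := by push_cast; ring
  rw [e1]
  rcases Nat.lt_or_ge d (a + 1) with h1 | h1
  · rw [val_sub' hW h1 (by omega)]
    omega
  · rw [val_sub hW h1 (by omega)]
    omega

theorem exists_d (W j : ZMod p) : ∃ d : ℕ, 1 ≤ d ∧ d ≤ p ∧ W = j + (d : ZMod p) := by
  have hp : 0 < p := Nat.pos_of_ne_zero (NeZero.ne p)
  rcases Nat.eq_zero_or_pos (W - j).val with h | h
  · refine ⟨p, hp, le_rfl, ?_⟩
    rw [ZMod.natCast_self, add_zero]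
    exact sub_eq_zero.1 ((ZMod.val_eq_zero _).1 h)
  · refine ⟨(W - j).val, h, (ZMod.val_lt _).le, ?_⟩
    rw [ZMod.natCast_zmod_val]
    ring

end act

section

variable {p q a b c : ℕ} [NeZero p] [NeZero q] {z : ZMod p → ZMod (p * q)} {i0 ρ : ZMod p}
  {θ : ZMod (p * q)} {δ l : ℕ} {k : ℤ}

theorem off_of {M : ℕ} [NeZero M] {x y : ZMod M} {n : ℕ} (hn : n < M)
    (h : y = x + (n : ZMod M)) : off x y = n := (off_eq_iff x y hn).2 h

/-- the position of the level `j + d` -/
theorem e_row {W j : ZMod p} {d : ℕ} (hW : W = j + (d : ZMod p)) :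
    e p q W = e p q j + ((d * q : ℕ) : ZMod (p * q)) := by
  rw [hW, e_add, e_natCast]

theorem rho_const (hP : Par p q a b) {W : ZMod p} {S : ZMod (p * q)}
    (hT : ∀ j, aT a b W j → sc q z j + a * q ≠ S) (hB : ∀ j, aB b W j → sc q z j ≠ S) :
    rhoS q a b z W (S + 1) = rhoS q a b z W S := by
  classical
  have h1 := LDXaux.rj (a := a) (b := b) (one_lt_mul hP) z W S
  rw [Finset.sum_eq_zero, Finset.sum_eq_zero] at h1
  · linarith
  · intro j _
    exact if_neg fun h => hB j h.1 h.2
  · intro j _
    exact if_neg fun h => hT j h.1 h.2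

theorem sc_inj (hG : Gen q z) {i j : ZMod p} (h : sc q z i = sc q z j) : i = j := by
  apply gen_res p q hG
  rw [← res_sc, h, res_sc]

theorem sct_inj (hG : Gen q z) {i j : ZMod p} (h : sc q z i + a * q = sc q z j + a * q) :
    i = j := sc_inj hG (add_right_cancel h)

theorem sct_ne (hP : Par p q a b) (hG : Gen q z) (i j : ZMod p) :
    sc q z i + a * q ≠ sc q z j := by
  intro h
  have h1 : i = j := by
    apply gen_res p q hG
    have h2 := congrArg (res p q) h
    rw [map_add, res_mul_q, add_zero, res_sc, res_sc] at h2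
    exact h2
  subst h1
  exact (nat_mul_ne hP).1 (by linear_combination h)

theorem rho_T (hP : Par p q a b) (hG : Gen q z) (W j : ZMod p) :
    rhoS q a b z W (sc q z j + a * q + 1) = rhoS q a b z W (sc q z j + a * q) +
      ind (aT a b W j) := by
  classical
  have h1 := LDXaux.rj (a := a) (b := b) (one_lt_mul hP) z W (sc q z j + a * q)
  rw [Finset.sum_eq_single j, Finset.sum_eq_zero] at h1
  · by_cases h2 : aT a b W j
    · rw [if_pos ⟨h2, rfl⟩] at h1
      rw [ind_pos h2]
      linarith
    · rw [if_neg fun h => h2 h.1] at h1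
      rw [ind_neg h2]
      linarith
  · intro i _
    exact if_neg fun h => sct_ne hP hG j i h.2.symm
  · intro i _ hi
    exact if_neg fun h => hi (sct_inj hG h.2)
  · intro h
    exact absurd (Finset.mem_univ _) h

theorem rho_B (hP : Par p q a b) (hG : Gen q z) (W j : ZMod p) :
    rhoS q a b z W (sc q z j + 1) = rhoS q a b z W (sc q z j) - ind (aB b W j) := by
  classical
  have h1 := LDXaux.rj (a := a) (b := b) (one_lt_mul hP) z W (sc q z j)
  rw [Finset.sum_eq_zero, Finset.sum_eq_single j] at h1
  · by_cases h2 : aB b W j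
    · rw [if_pos ⟨h2, rfl⟩] at h1
      rw [ind_pos h2]
      linarith
    · rw [if_neg fun h => h2 h.1] at h1
      rw [ind_neg h2]
      linarith
  · intro i _ hi
    exact if_neg fun h => hi (sc_inj hG h.2)
  · intro h
    exact absurd (Finset.mem_univ _) h
  · intro i _
    exact if_neg fun h => sct_ne hP hG i j h.2

/-- small natural numbers which are congruent are equal -/
theorem nat_eq {M : ℕ} {m n : ℕ} (hm : m < M) (hn : n < M) (h : (m : ZMod M) = (n : ZMod M)) :
    m = n := Nat.ModEq.eq_of_lt_of_lt ((ZMod.natCast_eq_natCast_iff m n M).1 h) hm hn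

/-- no letters at the part of the line inside the box of `j` -/
theorem nbd (h : LS p q a b c z i0 ρ θ δ l k) (h2b : 2 * b < p) (hK : KEm p q a b ρ θ l)
    {W j : ZMod p} {d s : ℕ} (hW : W = j + (d : ZMod p)) (hs1 : 1 ≤ s)
    (hsa : s < a * q) (hs2 : d * q ≤ b * q + s) (hs3 : s + 1 + c ≤ d * q) :
    rhoS q a b z W (sc q z j + (s : ZMod (p * q)) + 1) =
      rhoS q a b z W (sc q z j + (s : ZMod (p * q))) := by
  obtain ⟨haq, hbq, habq, h2a, h2b'⟩ := lt_mul_of h.hP
  have hq1 : 2 < q := by
    have := h.hpq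
    have := h.hP.ha
    have := h.hP.hab
    omega
  have hc := h.hB.hc
  set S := sc q z j + (s : ZMod (p * q)) with hS
  set X := S - e p q W with hX
  have heW := e_row (q := q) hW
  have hzj : z j = X + 1 + ((d * q - s - 1 : ℕ) : ZMod (p * q)) := by
    rw [Nat.cast_sub (by omega), Nat.cast_sub (by omega), hX, hS, heW]
    unfold sc
    push_cast
    ring
  have hoj : off (X + 1) (z j) = d * q - s - 1 := off_of (by omega) hzj
  apply rho_const h.hP
  · intro e he heS
    obtain ⟨f, hf1, hfp, hf⟩ := exists_d W e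
    have hf2 := (aT_iff' h.hP hf hf1 hfp).1 he
    have hef := e_row (q := q) hf
    have hfq : (f - a) * q = f * q - a * q := Nat.sub_mul _ _ _
    have hfq1 : 1 * q ≤ (f - a) * q := Nat.mul_le_mul_right q (by omega)
    have hfq2 : (f - a) * q ≤ b * q := Nat.mul_le_mul_right q (by omega)
    have hze : z e = X + 1 + (((f - a) * q - 1 : ℕ) : ZMod (p * q)) := by
      rw [Nat.cast_sub (by omega), hfq, Nat.cast_sub (by omega), hX, ← heS, hef]
      unfold sc
      push_cast
      ring
    have hoe : off (X + 1) (z e) = (f - a) * q - 1 := off_of (by omega) hze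
    have hne : e ≠ j := by
      rintro rfl
      have h1 : ((a * q : ℕ) : ZMod (p * q)) = (s : ZMod (p * q)) := by
        rw [hS] at heS
        push_cast
        linear_combination heS
      have := nat_eq haq (by omega) h1
      omega
    have hb1 : box q a b z e (X + 1) S := by
      refine ⟨by omega, ?_⟩
      have : off (sc q z e + 1) S = a * q - 1 := off_of (by omega) (by
        rw [← heS, Nat.cast_sub (by omega)]
        push_cast
        ring)
      omega
    have hb2 : box q a b z j (X + 1) S := by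
      refine ⟨by omega, ?_⟩
      have : off (sc q z j + 1) S = s - 1 := off_of (by omega) (by
        rw [hS, Nat.cast_sub hs1]
        push_cast
        ring)
      omega
    obtain ⟨h1, h2⟩ := disj_gen h h2b hK hne hb1 hb2
    rcases h2 with h2 | h2
    · rw [← h2, off_self] at hoe
      omega
    · rw [← h2, off_self] at hoj
      omega
  · intro e he heS
    obtain ⟨f, hf1, hfp, hf⟩ := exists_d W e
    have hf2 := (aB_iff hf hf1 hfp).1 he
    have hef := e_row (q := q) hf
    have hfq1 : 1 * q ≤ f * q := Nat.mul_le_mul_right q (by omega)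
    have hfq2 : f * q ≤ b * q := Nat.mul_le_mul_right q (by omega)
    have hze : z e = X + 1 + ((f * q - 1 : ℕ) : ZMod (p * q)) := by
      rw [Nat.cast_sub (by omega), hX, ← heS, hef]
      unfold sc
      push_cast
      ring
    have hoe : off (X + 1) (z e) = f * q - 1 := off_of (by omega) hze
    have hne : e ≠ j := by
      rintro rfl
      have h1 : ((0 : ℕ) : ZMod (p * q)) = (s : ZMod (p * q)) := by
        rw [hS] at heS
        push_cast
        linear_combination heS
      have := nat_eq (by omega) (by omega) h1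
      omega
    have hb1 : box q a b z e (X + 1) (S + 1) := by
      refine ⟨by omega, ?_⟩
      rw [heS, off_self]
      omega
    have hb2 : box q a b z j (X + 1) (S + 1) := by
      refine ⟨by omega, ?_⟩
      have : off (sc q z j + 1) (S + 1) = s := off_of (by omega) (by
        rw [hS]
        ring)
      omega
    obtain ⟨h1, h2⟩ := disj_gen h h2b hK hne hb1 hb2
    rcases h2 with h2 | h2
    · rw [← h2, off_self] at hoe
      omega
    · rw [← h2, off_self] at hoj
      omega

/-- the function of the ordinate is constant at the part of the line inside the box of `j` -/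
theorem nbd_range (h : LS p q a b c z i0 ρ θ δ l k) (h2b : 2 * b < p) (hK : KEm p q a b ρ θ l)
    {W j : ZMod p} {d s : ℕ} (hW : W = j + (d : ZMod p)) (hs1 : 1 ≤ s)
    (hs2 : d * q ≤ b * q + s) :
    ∀ n : ℕ, s + n ≤ a * q → s + n + c ≤ d * q →
      rhoS q a b z W (sc q z j + ((s + n : ℕ) : ZMod (p * q))) =
        rhoS q a b z W (sc q z j + (s : ZMod (p * q))) := by
  intro n
  induction n with
  | zero => intro _ _; rw [Nat.add_zero]
  | succ n ih =>
    intro h1 h2
    have h3 := nbd h h2b hK (s := s + n) hW (by omega) (by omega) (by omega) (by omega)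
    have e1 : sc q z j + ((s + (n + 1) : ℕ) : ZMod (p * q)) =
        sc q z j + ((s + n : ℕ) : ZMod (p * q)) + 1 := by push_cast; ring
    rw [e1, h3]
    exact ih (by omega) (by omega)

theorem nbd_eq (h : LS p q a b c z i0 ρ θ δ l k) (h2b : 2 * b < p) (hK : KEm p q a b ρ θ l)
    {W j : ZMod p} {d s t : ℕ} (hW : W = j + (d : ZMod p)) (hs1 : 1 ≤ s)
    (hs2 : d * q ≤ b * q + s) (hst : s ≤ t) (hta : t ≤ a * q) (htc : t + c ≤ d * q) :
    rhoS q a b z W (sc q z j + (t : ZMod (p * q))) =
        rhoS q a b z W (sc q z j + (s : ZMod (p * q))) := by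
  have h1 := nbd_range h h2b hK hW hs1 hs2 (t - s) (by omega) (by omega)
  have e1 : s + (t - s) = t := by omega
  rw [e1] at h1
  exact h1

/-- consecutive covered rows of a block column lie in the same box -/
theorem cov_step (h : LS p q a b c z i0 ρ θ δ l k) (h2b : 2 * b < p) (hK : KEm p q a b ρ θ l)
    {X S : ZMod (p * q)} (hX : rp p q X = 0) {g g' : ZMod p} (hg : box q a b z g X S)
    (hg' : box q a b z g' X (S + 1)) : g = g' := by
  obtain ⟨haq, hbq, habq, h2a, h2b'⟩ := lt_mul_of h.hP
  have hq1 := h.hP.hq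
  by_cases h1 : off (sc q z g + 1) (S + 1) < a * q
  · exact disj_blk h h2b hK hX ⟨hg.1, h1⟩ hg'
  · by_cases h2 : off (sc q z g' + 1) S < a * q
    · exact disj_blk h h2b hK hX hg ⟨hg'.1, h2⟩
    · have h3 : off S (S + 1) = 1 := off_of (by omega) (by push_cast; ring)
      have hgS := hg.2
      have hgS' := hg'.2
      have h4 := off_add (sc q z g + 1) S (S + 1)
      have h5 := off_add (sc q z g' + 1) S (S + 1)
      have h6 := off_lt (sc q z g + 1) S
      have h7 := off_lt (sc q z g' + 1) S
      have h8 : off (sc q z g + 1) S = a * q - 1 := by omega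
      have h9 : off (sc q z g' + 1) (S + 1) = 0 := by omega
      rw [off_eq_iff _ _ (by omega), Nat.cast_sub (by omega)] at h8
      rw [off_eq_zero] at h9
      apply gen_res p q h.hG
      have h10 : sc q z g + (a : ZMod (p * q)) * q = sc q z g' := by
        push_cast at h8
        linear_combination -h8 - h9
      have h11 := congrArg (res p q) h10
      rw [map_add, res_mul_q, add_zero, res_sc, res_sc] at h11
      exact h11

/-- a block column which is covered at all rows of a box belongs to the box -/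
theorem cover (h : LS p q a b c z i0 ρ θ δ l k) (h2a : 2 * a < p) (h2b : 2 * b < p)
    (hK : KEm p q a b ρ θ l) {X : ZMod (p * q)} (hX : rp p q X = 0) {f : ZMod p}
    (hc : ∀ s : ℕ, s < a * q → ∃ g, box q a b z g X (sc q z f + 1 + (s : ZMod (p * q)))) :
    off X (z f) < b * q := by
  obtain ⟨haq, hbq, habq, h2a', h2b'⟩ := lt_mul_of h.hP
  have hq1 := h.hP.hq
  have h2aq : 2 * (a * q) < p * q := by
    calc 2 * (a * q) = (2 * a) * q := by ring
      _ < p * q := Nat.mul_lt_mul_of_pos_right h2a (by omega)
  obtain ⟨g, hg⟩ := hc 0 (by omega)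
  have key : ∀ s : ℕ, s < a * q → box q a b z g X (sc q z f + 1 + (s : ZMod (p * q))) := by
    intro s
    induction s with
    | zero => intro _; exact hg
    | succ s ih =>
      intro hs
      obtain ⟨g', hg'⟩ := hc (s + 1) hs
      have e1 : sc q z f + 1 + ((s + 1 : ℕ) : ZMod (p * q)) =
          sc q z f + 1 + (s : ZMod (p * q)) + 1 := by push_cast; ring
      have h1 := cov_step h h2b hK hX (ih (by omega)) (by rw [← e1]; exact hg')
      rw [h1]
      exact hg'
  have h1 := (key 0 (by omega)).2
  have h2 := (key (a * q - 1) (by omega)).2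
  rw [Nat.cast_zero, add_zero] at h1
  have h3 : off (sc q z f + 1) (sc q z f + 1 + ((a * q - 1 : ℕ) : ZMod (p * q))) = a * q - 1 :=
    off_nat _ (by omega)
  have h4 := off_add (sc q z g + 1) (sc q z f + 1)
    (sc q z f + 1 + ((a * q - 1 : ℕ) : ZMod (p * q)))
  have h5 : off (sc q z g + 1) (sc q z f + 1) = 0 := by omega
  rw [off_eq_zero] at h5
  have h6 : g = f := sc_inj h.hG (add_right_cancel h5)
  rw [← h6]
  exact hg.1

/-- the column of a cluster ends at its right side -/
theorem col_next (hP : Par p q a b) (hB : Blk q b c z) {X : ZMod (p * q)} (hX : rp p q X = 0)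
    {g : ZMod p} (h1 : off X (z g) < b * q) (h2 : ¬ off (X + (p : ZMod (p * q))) (z g) < b * q) :
    bx q c z g = X := by
  by_contra h3
  have h4 := jblock hP hB hX g
  rw [ind_neg h2, ind_pos h1, ind_neg h3] at h4
  have h5 : 0 ≤ ind (byy q b c z g = X) := by
    rw [← ite_ind]
    split_ifs <;> norm_num
  linarith

theorem bx_inj (hG : Gen q z) {i j : ZMod p} (h : bx q c z i = bx q c z j) : i = j := by
  apply gen_res p q hG
  have h1 : z i = z j := by
    unfold bx at h
    linear_combination h
  rw [h1]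

theorem byy_inj (hG : Gen q z) {i j : ZMod p} (h : byy q b c z i = byy q b c z j) : i = j := by
  apply gen_res p q hG
  have h1 : z i = z j := by
    unfold byy at h
    linear_combination h
  rw [h1]

end

end Helper55.KV
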