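import Pool.Agent.Helper55.KV.Lev

set_option autoImplicit false
set_option linter.unusedSectionVars false

/-!
# Ties of class `K` with `1 ≤ K < b` or `a < b`
-/

namespace Helper55.KV

open Helper11.N1 Helper55.KE
open Helper11.N1.DECaux (ind ite_ind ind_and ind_congr ind_pos ind_neg)

section

variable {p q a b c : ℕ} [NeZero p] [NeZero q] {z : ZMod p → ZMod (p * q)} {i0 ρ : ZMod p}
  {θ : ZMod (p * q)} {δ l : ℕ} {k : ℤ}

/-- the row below the right partner has not the minimal value -/
theorem Ext.rowM (h : LS p q a b c z i0 ρ θ δ l k) (h2b : 2 * b < p)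
    (hK : KEm p q a b ρ θ l) {W : ZMod p} {ST : ZMod (p * q)} {N M : ZMod p} {K : ℕ}
    (hT : Tie q b c z N M K) (hE : Ext q a b z W (bx q c z N + (p : ZMod (p * q))) ST) :
    rhoS q a b z W (sc q z M) ≠ rhoS q a b z W ST := by
  intro h1
  obtain ⟨haq, hbq, habq, h2a', h2b'⟩ := lt_mul_of h.hP
  have hq1 := h.hP.hq
  obtain ⟨g, hg⟩ := hE.cov h hE.hX rfl h1
  have hM : box q a b z M (bx q c z N + (p : ZMod (p * q))) (sc q z M + 1) := by
    refine ⟨hT.col h.hP h.hpq h.hB.hc, ?_⟩
    rw [off_self]
    omega
  have h2 := cov_step h h2b hK hE.hX hg hM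
  subst h2
  have h3 : off (sc q z g + 1) (sc q z g) = p * q - 1 := off_of (by omega) (by
    rw [Nat.cast_sub (by omega), ZMod.natCast_self]
    push_cast
    ring)
  have h4 := hg.2
  omega

/-- the case `a < b` -/
theorem case_ab (h : LS p q a b c z i0 ρ θ δ l k) (h2a : 2 * a < p) (h2b : 2 * b < p)
    (hK : KEm p q a b ρ θ l) (hab : a < b) {N M : ZMod p} {K : ℕ} (hT : Tie q b c z N M K)
    (hK1 : 1 ≤ K) (hKa : K < a ∨ (K = a ∧ c = 1)) : False := by
  obtain ⟨haq, hbq, habq, h2a', h2b'⟩ := lt_mul_of h.hP
  have hpq := h.hpq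
  have ha := h.hP.ha
  have hb := h.hP.hb
  have habp := h.hP.hab
  have hc := h.hB.hc
  have hE := ext_of h h2a h2b hK hT hKa (t := 0) (by omega) (by omega) (by omega) (Or.inl rfl)
  set W := N + ((a + 1 + 0 : ℕ) : ZMod p) with hW
  apply hE.rowM h h2b hK hT
  have h1 : (a + 1 + 0) * q ≤ b * q := Nat.mul_le_mul_right q (by omega)
  have h2 : (a + 1 + 0) * q = a * q + q := by ring
  have hKq : 1 * q ≤ K * q := Nat.mul_le_mul_right q hK1
  have hKq2 : K * q + 1 - 2 * c ≤ a * q := by
    rcases hKa with h6 | ⟨h6, h7⟩
    · have : K * q + q ≤ a * q := by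
        calc K * q + q = (K + 1) * q := by ring
          _ ≤ a * q := Nat.mul_le_mul_right q (by omega)
      omega
    · subst h6
      omega
  have h3 := nbd_eq h h2b hK hW (s := 1) (t := a * q) le_rfl (by omega) (by omega) le_rfl
    (by omega)
  have h4 := nbd_eq h h2b hK hW (s := 1) (t := K * q + 1 - 2 * c) le_rfl (by omega) (by omega)
    hKq2 (by omega)
  have h5 : sc q z M = sc q z N + ((K * q + 1 - 2 * c : ℕ) : ZMod (p * q)) := by
    have := hT.sceq hc
    rw [Nat.cast_sub (by omega)]
    linear_combination this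
  have h6 : sc q z N + a * q = sc q z N + ((a * q : ℕ) : ZMod (p * q)) := by push_cast; ring
  rw [h5, h4, h6, h3]

/-- the level function of a left side without active partner -/
theorem kv_neg (hG : Gen q z) {N W : ZMod p}
    (hf : ∀ f, bx q c z f = byy q b c z N → ¬ aR a W f) :
    KV q a b c z (byy q b c z N) W = - ind (aL a b W N) := by
  by_cases h1 : ∃ f, bx q c z f = byy q b c z N
  · obtain ⟨f, h2⟩ := h1
    have h3 := kv_merge (a := a) hG h2.symm W
    rw [h2, ind_neg (hf f h2)] at h3
    rw [h3]
    ring
  · push Not at h1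
    exact kv_L hG h1 W

/-- the line at a block column inside a box -/
theorem la_in (h : LS p q a b c z i0 ρ θ δ l k) (h2b : 2 * b < p) (hK : KEm p q a b ρ θ l)
    {W j : ZMod p} {X : ZMod (p * q)} (hX : rp p q X = 0)
    (hb : box q a b z j X (X + e p q W)) :
    LA q a b z W X = -1 - rhoS q a b z W (X + e p q W) := by
  have h1 := nn_pos hb
  have h2 := nn_le1 h h2b hK hX (X + e p q W)
  unfold LA
  linarith

theorem line_bx (hc : c ≤ 1) (hq : 1 ≤ q) {W j : ZMod p} {d : ℕ} (hW : W = j + (d : ZMod p))
    (hd : 1 ≤ d) :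
    bx q c z j + e p q W = sc q z j + ((d * q - c : ℕ) : ZMod (p * q)) := by
  have h1 := e_row (q := q) hW
  have h2 : 1 * q ≤ d * q := Nat.mul_le_mul_right q hd
  rw [h1, Nat.cast_sub (by omega)]
  unfold bx sc
  ring

theorem line_byy {W j : ZMod p} {d : ℕ} (hW : W = j + (d : ZMod p))
    (hd : b + 1 ≤ d) :
    byy q b c z j + e p q W + ((1 - c : ℕ) : ZMod (p * q)) =
      sc q z j + (((d - b) * q : ℕ) : ZMod (p * q)) := by
  have h1 := e_row (q := q) hW
  rw [h1, Nat.sub_mul, Nat.cast_sub (Nat.mul_le_mul_right q (by omega))]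
  unfold byy sc
  push_cast
  ring

/-- the first column of a box at a level whose line enters through the left side -/
theorem la_first (h : LS p q a b c z i0 ρ θ δ l k) (h2b : 2 * b < p) (hK : KEm p q a b ρ θ l)
    {W j : ZMod p} {d : ℕ} (hW : W = j + (d : ZMod p)) (hd : b + 1 ≤ d) (hda : d < a + b)
    {r : ℤ} (hr : rhoS q a b z W (sc q z j + (((d - b) * q : ℕ) : ZMod (p * q))) = r) :
    LA q a b z W (byy q b c z j + (p : ZMod (p * q))) = -1 - r := by
  obtain ⟨haq, hbq, habq, h2a', h2b'⟩ := lt_mul_of h.hP
  have hpq := h.hpq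
  have ha := h.hP.ha
  have hab := h.hP.hab
  have hc := h.hB.hc
  have h1 : (d - b) * q = d * q - b * q := Nat.sub_mul _ _ _
  have h2 : 1 * q ≤ (d - b) * q := Nat.mul_le_mul_right q (by omega)
  have h3 : (d - b) * q + q ≤ a * q := by
    calc (d - b) * q + q = (d - b + 1) * q := by ring
      _ ≤ a * q := Nat.mul_le_mul_right q (by omega)
  have hl : byy q b c z j + (p : ZMod (p * q)) + e p q W =
      sc q z j + (((d - b) * q + p - (1 - c) : ℕ) : ZMod (p * q)) := by
    have := line_byy (c := c) (z := z) hW hd
    rw [Nat.cast_sub (by omega), Nat.cast_add]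
    linear_combination this
  have h4 := nbd_eq h h2b hK hW (s := (d - b) * q) (t := (d - b) * q + p - (1 - c)) (by omega)
    (by omega) (by omega) (by omega) (by omega)
  have h5 : box q a b z j (byy q b c z j + (p : ZMod (p * q)))
      (byy q b c z j + (p : ZMod (p * q)) + e p q W) := by
    constructor
    · have : off (byy q b c z j + (p : ZMod (p * q))) (z j) = b * q + (1 - c) - p :=
        off_of (by omega) (by
          rw [Nat.cast_sub (by omega)]
          unfold byy
          push_cast
          ring)
      omega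
    · rw [hl]
      have : off (sc q z j + 1)
          (sc q z j + (((d - b) * q + p - (1 - c) : ℕ) : ZMod (p * q))) =
            (d - b) * q + p - (1 - c) - 1 := off_of (by omega) (by
          rw [Nat.cast_sub (show 1 ≤ (d - b) * q + p - (1 - c) by omega)]
          push_cast
          ring)
      omega
  rw [la_in h h2b hK (rp_add_p (by_rp h.hB j)) h5, hl, h4, hr]

/-- if the line enters a box through a left side without active partner, then there is a column
with a large value -/
theorem two_of_left (h : LS p q a b c z i0 ρ θ δ l k) (h2b : 2 * b < p)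
    (hK : KEm p q a b ρ θ l) {W j : ZMod p} {X1 ST : ZMod (p * q)} (hE : Ext q a b z W X1 ST)
    {d : ℕ} (hW : W = j + (d : ZMod p)) (hd : b + 1 ≤ d) (hda : d < a + b)
    (hr : rhoS q a b z W (sc q z j + (((d - b) * q : ℕ) : ZMod (p * q))) =
      rhoS q a b z W ST)
    (hf : ∀ f, bx q c z f = byy q b c z j → ¬ aR a W f) :
    LA q a b z W (byy q b c z j) = LA q a b z W X1 + 2 := by
  have h1 := la_first h h2b hK hW hd hda hr
  have h2 := la_jump h.hP h.hB (by_rp h.hB j) W (a := a)
  have hab := h.hP.hab
  have h3 : aL a b W j := (aL_iff h.hP hW (by omega) (by omega)).2 ⟨hd, by omega⟩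
  rw [kv_neg h.hG hf, ind_pos h3] at h2
  have h4 := hE.hs
  linarith

/-- the row of the top of `N` has the same value as the entry of the line into `N` -/
theorem top_row (h : LS p q a b c z i0 ρ θ δ l k) (h2b : 2 * b < p)
    (hK : KEm p q a b ρ θ l) (hba : b ≤ a) {W N : ZMod p} {t : ℕ}
    (hW : W = N + ((a + 1 + t : ℕ) : ZMod p)) (ht : t + 1 ≤ b) :
    rhoS q a b z W (sc q z N + (((a + 1 + t - b) * q : ℕ) : ZMod (p * q))) =
      rhoS q a b z W (sc q z N + a * q) := by
  have hc := h.hB.hc
  have hpq := h.hpq
  have h1 : (a + 1 + t - b) * q = (a + 1 + t) * q - b * q := Nat.sub_mul _ _ _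
  have h2 : 1 * q ≤ (a + 1 + t - b) * q := Nat.mul_le_mul_right q (by omega)
  have h3 : (a + 1 + t - b) * q ≤ a * q := Nat.mul_le_mul_right q (by omega)
  have h4 : (a + 1 + t) * q = a * q + (1 + t) * q := by ring
  have h5 : 1 * q ≤ (1 + t) * q := Nat.mul_le_mul_right q (by omega)
  have h6 := nbd_eq h h2b hK hW (s := (a + 1 + t - b) * q) (t := a * q) (by omega)
    (by omega) h3 le_rfl (by omega)
  rw [← h6]
  push_cast
  rfl

/-- the case `K < b ≤ a` -/
theorem case_Kb (h : LS p q a b c z i0 ρ θ δ l k) (h2a : 2 * a < p) (h2b : 2 * b < p)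
    (hK : KEm p q a b ρ θ l) (hba : b ≤ a) {N M : ZMod p} {K : ℕ} (hT : Tie q b c z N M K)
    (hK1 : 1 ≤ K) (hKb : K < b)
    (hf : ∀ f, bx q c z f = byy q b c z N → ¬ aR a (N + ((a + 1 + 0 : ℕ) : ZMod p)) f) :
    False := by
  obtain ⟨haq, hbq, habq, h2a', h2b'⟩ := lt_mul_of h.hP
  have hpq := h.hpq
  have ha := h.hP.ha
  have hb := h.hP.hb
  have habp := h.hP.hab
  have hc := h.hB.hc
  have hE := ext_of h h2a h2b hK hT (Or.inl (by omega)) (t := 0) (by omega) (by omega) (by omega)
    (Or.inl rfl)
  set W := N + ((a + 1 + 0 : ℕ) : ZMod p) with hW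
  have htwo := two_of_left h h2b hK hE hW (by omega) (by omega)
    (top_row h h2b hK hba hW (by omega)) hf
  have hup := hE.two_rho h (by_rp h.hB N) htwo.ge
  have hWM : W = M + ((a + 1 + b - K : ℕ) : ZMod p) := by
    rw [Nat.cast_sub (by omega), hW]
    push_cast
    linear_combination -hT.hr
  have hTM : aT a b W M := (aT_iff' h.hP hWM (by omega) (by omega)).2 ⟨by omega, by omega⟩
  have h1 := rho_T h.hP h.hG W M
  rw [ind_pos hTM] at h1
  have h2 := hup (sc q z M + a * q + 1)
  -- it remains to show that the row of the top of `M` has the larger value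
  suffices h3 : rhoS q a b z W (sc q z M + a * q) = rhoS q a b z W (sc q z N + a * q) + 1 by
    linarith
  have hsc := hT.sceq hc
  rcases Nat.lt_or_ge K 2 with hK2 | hK2
  · have : K = 1 := by omega
    subst this
    have h4 := nn_top h h2a h2b hK hT (Or.inl (by omega)) (σ := q - c) (by omega) (by omega)
    have h5 : bx q c z N + e p q W = sc q z N + a * q + ((q - c : ℕ) : ZMod (p * q)) := by
      have h5a : 1 * q ≤ (a + 1 + 0) * q := Nat.mul_le_mul_right q (by omega)
      rw [line_bx hc h.hP.hq hW (by omega), Nat.cast_sub (by omega), Nat.cast_sub (by omega)]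
      push_cast
      ring
    have h6 : LA q a b z W (bx q c z N) =
        - rhoS q a b z W (sc q z N + a * q + ((q - c : ℕ) : ZMod (p * q))) := by
      unfold LA
      rw [h5, h4]
      ring
    have hR : ¬ aR a W N := by
      rw [aR_iff hW (by omega) (by omega)]
      omega
    have hL : aL a b W M := (aL_iff h.hP hWM (by omega) (by omega)).2 ⟨by omega, by omega⟩
    have hKV := kv_merge (a := a) h.hG hT.hx W
    rw [ind_neg hR, ind_pos hL] at hKV
    have h7 := la_jump h.hP h.hB (bx_rp h.hB N) W (a := a)
    rw [hKV] at h7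
    have h8 := hE.hs
    have h9 : rhoS q a b z W (sc q z N + a * q + ((q - c : ℕ) : ZMod (p * q))) =
        rhoS q a b z W (sc q z N + a * q) + 1 := by linarith
    rw [← h9]
    have h10 : c = 0 ∨ c = 1 := by omega
    rcases h10 with rfl | rfl
    · have e1 : sc q z M + a * q = sc q z N + a * q + ((q - 0 : ℕ) : ZMod (p * q)) + 1 := by
        push_cast at hsc ⊢
        rw [Nat.sub_zero]
        linear_combination hsc
      rw [e1]
      apply rho_const h.hP
      · intro j _ hj
        have h11 : j = N := by
          apply gen_res p q h.hG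
          have h12 := congrArg (res p q) hj
          simp only [map_add, res_mul_q, res_sc, map_natCast, ZMod.natCast_self, add_zero,
            Nat.sub_zero] at h12
          exact h12
        subst h11
        have h13 : ((0 : ℕ) : ZMod (p * q)) = (q : ZMod (p * q)) := by
          rw [Nat.sub_zero] at hj
          push_cast
          linear_combination hj
        have := nat_eq (by omega) (by omega) h13
        omega
      · intro j _ hj
        have h11 : j = N := by
          apply gen_res p q h.hG
          have h12 := congrArg (res p q) hj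
          simp only [map_add, res_mul_q, res_sc, map_natCast, ZMod.natCast_self, add_zero,
            Nat.sub_zero] at h12
          exact h12
        subst h11
        have h13 : ((0 : ℕ) : ZMod (p * q)) = ((a * q + q : ℕ) : ZMod (p * q)) := by
          rw [Nat.sub_zero] at hj
          push_cast
          linear_combination hj
        have := nat_eq (by omega) (by omega) h13
        omega
    · congr 1
      push_cast at hsc ⊢
      rw [Nat.cast_sub (by omega)]
      push_cast
      linear_combination hsc
  · -- the line at the first column right of `N` lies in the box of `M`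
    have h4 : K * q + q ≤ a * q + q := by
      have : K * q ≤ a * q := Nat.mul_le_mul_right q (by omega)
      omega
    have h5 : (a + 1 - K) * q = (a + 1) * q - K * q := Nat.sub_mul _ _ _
    have h6 : (a + 1) * q = a * q + q := by ring
    have h7 : 2 * q ≤ K * q := Nat.mul_le_mul_right q hK2
    have h7' : K * q + q ≤ b * q := by
      calc K * q + q = (K + 1) * q := by ring
        _ ≤ b * q := Nat.mul_le_mul_right q (by omega)
    have h8 : (a + 1 + b - K) * q = (a + 1 - K) * q + b * q := by
      rw [← Nat.add_mul]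
      congr 1
      omega
    have hl : bx q c z N + (p : ZMod (p * q)) + e p q W =
        sc q z M + (((a + 1 - K) * q + p - 1 + c : ℕ) : ZMod (p * q)) := by
      have h9 := line_bx (z := z) hc h.hP.hq hW (by omega)
      rw [Nat.cast_sub (by
        have : 1 * q ≤ (a + 1 + 0) * q := Nat.mul_le_mul_right q (by omega)
        omega)] at h9
      rw [h5, Nat.cast_add, Nat.cast_sub (by omega), Nat.cast_add, Nat.cast_sub (by omega)]
      push_cast at h9 hsc ⊢
      linear_combination h9 - hsc
    have h10 : box q a b z M (bx q c z N + (p : ZMod (p * q)))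
        (bx q c z N + (p : ZMod (p * q)) + e p q W) := by
      refine ⟨hT.col h.hP hpq hc, ?_⟩
      rw [hl]
      have : off (sc q z M + 1)
          (sc q z M + (((a + 1 - K) * q + p - 1 + c : ℕ) : ZMod (p * q))) =
            (a + 1 - K) * q + p - 1 + c - 1 := off_of (by omega) (by
          rw [Nat.cast_sub (show 1 ≤ (a + 1 - K) * q + p - 1 + c by omega)]
          push_cast
          ring)
      omega
    have h11 := la_in h h2b hK hE.hX h10
    have h12 := nbd_eq h h2b hK hWM (s := (a + 1 - K) * q + p - 1 + c) (t := a * q) (by omega)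
      (by omega) (by omega) le_rfl (by omega)
    rw [hl, ← h12] at h11
    have h13 : sc q z M + ((a * q : ℕ) : ZMod (p * q)) = sc q z M + a * q := by push_cast; rfl
    rw [h13] at h11
    have h14 := hE.hs
    linarith

end

end Helper55.KV
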