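import Pool.Agent.Helper55.KV.Chain

set_option autoImplicit false
set_option linter.unusedSectionVars false

/-!
# The chain of tied boxes stops
-/

namespace Helper55.KV

open Helper11.N1 Helper55.KE
open Helper11.N1.DECaux (ind ite_ind ind_and ind_congr ind_pos ind_neg)

/-- a step of the line at the level `a + 1 + t` -/
structure St {p : ℕ} (q a b c : ℕ) [NeZero p] [NeZero q] (z : ZMod p → ZMod (p * q))
    (i0 ρ : ZMod p) (l K t j d : ℕ) : Prop where
  hd : d + j * (a + b - K) = a + 1 + t + a * Fs p q l j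
  h1 : 1 ≤ d
  h2 : d ≤ a
  hv : vs p q l j < p
  hW : i0 + ((p - 1 : ℕ) : ZMod p) * ρ + ((a + 1 + t : ℕ) : ZMod p) =
    i0 + ((vs p q l j : ℕ) : ZMod p) * ρ + (d : ZMod p)
  hR : ∃ D : ℕ, D + (1 + t) * q + 2 * c * j = j * b * q + j + c ∧
    Rows q a b z (i0 + ((p - 1 : ℕ) : ZMod p) * ρ + ((a + 1 + t : ℕ) : ZMod p))
      (sc q z (i0 + ((p - 1 : ℕ) : ZMod p) * ρ) + a * q)
      (bx q c z (i0 + ((vs p q l j : ℕ) : ZMod p) * ρ) +
        e p q (i0 + ((p - 1 : ℕ) : ZMod p) * ρ + ((a + 1 + t : ℕ) : ZMod p))) D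

section

variable {p q a b c : ℕ} [NeZero p] [NeZero q] {z : ZMod p → ZMod (p * q)} {i0 ρ : ZMod p}
  {θ : ZMod (p * q)} {δ l : ℕ} {k : ℤ}

/-- small natural numbers congruent modulo `p` -/
theorem nat_near {p : ℕ} [NeZero p] {x y : ℕ} (h : (x : ZMod p) = (y : ZMod p)) (h1 : x < y + p)
    (h2 : y < x + p) : x = y := by
  have h3 : (((x : ℤ)) : ZMod p) = ((y : ℤ) : ZMod p) := by exact_mod_cast h
  have h4 := int_eq h3 (by omega) (by omega)
  omega

/-- the difference of the rows of tied boxes of the second kind -/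
theorem row_S (h : LS p q a b c z i0 ρ θ δ l k) {K : ℕ} (hk : k = -(K : ℤ)) (hKa : K ≤ a)
    (hτ : (q : ZMod p) * ρ = -(a : ZMod p)) {m : ℕ} (hm : q - l ≤ m) :
    i0 + ((m - (q - l) : ℕ) : ZMod p) * ρ =
      i0 + (m : ZMod p) * ρ + ((a + b - K : ℕ) : ZMod p) := by
  have hl := h.hl
  have hpq := h.hpq
  have h1 := h.hrl
  rw [hk] at h1
  rw [Nat.cast_sub hm, Nat.cast_sub (show l ≤ q by omega), Nat.cast_sub (show K ≤ a + b by omega)]
  push_cast at h1 ⊢
  linear_combination h1 - hτ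

/-- the difference of the rows of tied boxes of the first kind -/
theorem row_F (h : LS p q a b c z i0 ρ θ δ l k) {K : ℕ} (hk : k = -(K : ℤ)) (m : ℕ) :
    i0 + ((m + l : ℕ) : ZMod p) * ρ + (K : ZMod p) =
      i0 + (m : ZMod p) * ρ + (b : ZMod p) := by
  have h1 := h.hrl
  rw [hk] at h1
  push_cast at h1 ⊢
  linear_combination h1

/-- the first step -/
theorem first (h : LS p q a b c z i0 ρ θ δ l k) (h2b : 2 * b < p)
    (hK : KEm p q a b ρ θ l) (hba : b ≤ a) {K : ℕ} (hk : k = -(K : ℤ)) (hKb : b + 1 ≤ K)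
    (hKa : K ≤ a) (hql : q < p + l) (hτ : (q : ZMod p) * ρ = -(a : ZMod p)) {t : ℕ}
    (ht : t + 1 ≤ b) : St q a b c z i0 ρ l K t 1 (K - b + 1 + t) := by
  obtain ⟨haq, hbq, habq, h2a', h2b'⟩ := lt_mul_of h.hP
  have hc := h.hB.hc
  have hl := h.hl
  have hpq := h.hpq
  have ha := h.hP.ha
  have hab := h.hP.hab
  have hl1 : q - l ≤ vs p q l 0 := by
    rw [vs_zero]
    omega
  have hv1 : vs p q l 1 = p - 1 - (q - l) := by
    rw [vs_S hl1, vs_zero]
  have hF1 : Fs p q l 1 = 0 := Fs_S hl1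
  have hrow := row_S h hk hKa hτ (m := p - 1) (by omega)
  have htie := (tie_iff h (n := p - 1 - (q - l)) (m := p - 1) (by omega) (by omega)).2
    (Or.inr (by omega))
  have e1 : (a + 1 + t) * q = a * q + (1 + t) * q := by ring
  have e2 : (a + 1 + t - b) * q = (a + 1 + t) * q - b * q := Nat.sub_mul _ _ _
  have e3 : (1 + t) * q ≤ b * q := Nat.mul_le_mul_right q (by omega)
  have e4 : b * q ≤ a * q := Nat.mul_le_mul_right q hba
  have e5 : 1 * q ≤ (1 + t) * q := Nat.mul_le_mul_right q (by omega)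
  refine ⟨?_, by omega, by omega, by omega, ?_, ?_⟩
  · rw [hF1]
    omega
  · rw [hv1, hrow, Nat.cast_sub (show K ≤ a + b by omega)]
    have e6 : ((K - b + 1 + t : ℕ) : ZMod p) = K - b + 1 + t := by
      rw [Nat.cast_add, Nat.cast_add, Nat.cast_sub (show b ≤ K by omega)]
      push_cast
      ring
    rw [e6]
    push_cast
    ring
  · refine ⟨0 + (a * q - (a + 1 + t - b) * q) + (1 - c), ?_, ?_⟩
    · have e7 : 1 * b * q = b * q := by ring
      rw [e7]
      omega
    · have hR0 : Rows q a b z (i0 + ((p - 1 : ℕ) : ZMod p) * ρ + ((a + 1 + t : ℕ) : ZMod p))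
          (sc q z (i0 + ((p - 1 : ℕ) : ZMod p) * ρ) + a * q)
          (sc q z (i0 + ((p - 1 : ℕ) : ZMod p) * ρ) + ((a * q : ℕ) : ZMod (p * q))) 0 := by
        refine ⟨by push_cast; ring, ?_⟩
        intro m hm
        have : m = 0 := by omega
        subst this
        congr 1
        push_cast
        ring
      have hR1 := hR0.ext h h2b hK rfl (s := (a + 1 + t - b) * q) (by omega) (by omega)
        (by omega) le_rfl (by omega)
      have hR2 := hR1.tie h rfl (by omega) htie.symm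
      rw [hv1]
      exact hR2

/-- the number of rows with the same value is bounded -/
theorem Rows.bound (h : LS p q a b c z i0 ρ θ δ l k) (h2b : 2 * b < p)
    (hK : KEm p q a b ρ θ l) {W N M : ZMod p} {K : ℕ} (hT : Tie q b c z N M K)
    (hKa : K < a) (hE : Ext q a b z W (bx q c z N + (p : ZMod (p * q))) (sc q z N + a * q))
    {Y : ZMod (p * q)} {D : ℕ} (hR : Rows q a b z W (sc q z N + a * q) Y D) :
    D + 2 + K * q ≤ a * q + 2 * c := by
  have hc := h.hB.hc
  have hq1 := h.hP.hq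
  by_contra hcon
  apply hE.rowM h h2b hK hT
  have h1 : K * q + q ≤ a * q := by
    calc K * q + q = (K + 1) * q := by ring
      _ ≤ a * q := Nat.mul_le_mul_right q (by omega)
  rcases (by omega : 1 + K * q ≤ a * q + 2 * c) with h0
  have h2 := hR.hr (D + (1 + K * q) - (a * q + 2 * c)) (by omega)
  rw [← h2]
  congr 1
  have h3 := hR.hY
  have h4 := hT.sceq hc
  rw [Nat.cast_sub (by omega)]
  push_cast at h4 ⊢
  linear_combination h4 - h3

/-- the next step -/
theorem St.step (h : LS p q a b c z i0 ρ θ δ l k) (h2a : 2 * a < p) (h2b : 2 * b < p)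
    (hK : KEm p q a b ρ θ l) (hba : b ≤ a) {K : ℕ} (hk : k = -(K : ℤ)) (hKb : b + 1 ≤ K)
    (hKa : K ≤ a) (hτ : (q : ZMod p) * ρ = -(a : ZMod p)) {t j d : ℕ}
    {X1 : ZMod (p * q)}
    (hE : Ext q a b z (i0 + ((p - 1 : ℕ) : ZMod p) * ρ + ((a + 1 + t : ℕ) : ZMod p)) X1
      (sc q z (i0 + ((p - 1 : ℕ) : ZMod p) * ρ) + a * q))
    (hno : ∀ X, rp p q X = 0 →
      LA q a b z (i0 + ((p - 1 : ℕ) : ZMod p) * ρ + ((a + 1 + t : ℕ) : ZMod p)) X ≠
      LA q a b z (i0 + ((p - 1 : ℕ) : ZMod p) * ρ + ((a + 1 + t : ℕ) : ZMod p)) X1 + 2)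
    (hS : St q a b c z i0 ρ l K t j d) (hd : b + 1 ≤ d) :
    ∃ d', St q a b c z i0 ρ l K t (j + 1) d' := by
  obtain ⟨haq, hbq, habq, h2a', h2b'⟩ := lt_mul_of h.hP
  have hc := h.hB.hc
  have hl := h.hl
  have hpq := h.hpq
  have ha := h.hP.ha
  have hb := h.hP.hb
  have hab := h.hP.hab
  have hq1 := h.hP.hq
  obtain ⟨D, hD, hR⟩ := hS.hR
  have hd1 := hS.h1
  have hd2 := hS.h2
  have hv := hS.hv
  have hdd := hS.hd
  rw [line_bx hc hq1 hS.hW hd1] at hR
  have e1 : (d - b) * q = d * q - b * q := Nat.sub_mul _ _ _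
  have e2 : b * q + q ≤ d * q := by
    calc b * q + q = (b + 1) * q := by ring
      _ ≤ d * q := Nat.mul_le_mul_right q hd
  have e3 : d * q ≤ a * q := Nat.mul_le_mul_right q hd2
  have e4 : 2 * q ≤ b * q := Nat.mul_le_mul_right q hb
  have hR1 := hR.ext h h2b hK hS.hW (s := (d - b) * q) (by omega) (by omega) (by omega)
    (by omega) (by omega)
  have hrow : rhoS q a b z (i0 + ((p - 1 : ℕ) : ZMod p) * ρ + ((a + 1 + t : ℕ) : ZMod p))
      (sc q z (i0 + ((vs p q l j : ℕ) : ZMod p) * ρ) + (((d - b) * q : ℕ) : ZMod (p * q))) =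
      rhoS q a b z (i0 + ((p - 1 : ℕ) : ZMod p) * ρ + ((a + 1 + t : ℕ) : ZMod p))
        (sc q z (i0 + ((p - 1 : ℕ) : ZMod p) * ρ) + a * q) := by
    have h2 := hR1.hr 0 (Nat.zero_le _)
    rw [Nat.cast_zero, add_zero] at h2
    exact h2
  have hex : ∃ f, bx q c z f = byy q b c z (i0 + ((vs p q l j : ℕ) : ZMod p) * ρ) ∧
      aR a (i0 + ((p - 1 : ℕ) : ZMod p) * ρ + ((a + 1 + t : ℕ) : ZMod p)) f := by
    by_contra hcon
    push Not at hcon
    exact hno _ (by_rp h.hB _)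
      (two_of_left h h2b hK hE hS.hW hd (by omega) hrow hcon)
  obtain ⟨f, hf, hfR⟩ := hex
  obtain ⟨n, hn, rfl⟩ := ap_row h.hAP f
  obtain ⟨d', hd1', hdp', hd'⟩ := exists_d
    (i0 + ((p - 1 : ℕ) : ZMod p) * ρ + ((a + 1 + t : ℕ) : ZMod p)) (i0 + (n : ZMod p) * ρ)
  have hda' := (aR_iff hd' hd1' hdp').1 hfR
  have hR2 := hR1.tie h hS.hW hd hf
  have hDD : D + (d * q - c - (d - b) * q) + (1 - c) + (1 + t) * q + 2 * c * (j + 1) =
      (j + 1) * b * q + (j + 1) + c := by
    have e5 : (j + 1) * b * q = j * b * q + b * q := by ring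
    have e6 : 2 * c * (j + 1) = 2 * c * j + 2 * c := by ring
    rw [e5, e6]
    omega
  rcases (tie_iff h hn hv).1 hf.symm with h3 | h3
  · have h4 : ¬ q - l ≤ vs p q l j := by omega
    have hv1 := vs_F h4
    have hF1 := Fs_F h4
    rw [h3] at hv1
    have h5 := row_F h hk (vs p q l j)
    rw [h3] at h5
    have h6 : ((d' + b : ℕ) : ZMod p) = ((d + K : ℕ) : ZMod p) := by
      have := hS.hW
      push_cast at *
      linear_combination this - hd' - h5
    have h7 := nat_near h6 (by omega) (by omega)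
    refine ⟨d', ?_, hd1', hda', by omega, ?_, ?_⟩
    · rw [hF1, Nat.succ_mul, Nat.mul_succ]
      omega
    · rw [hv1]
      exact hd'
    · refine ⟨_, hDD, ?_⟩
      rw [hv1]
      exact hR2
  · have h4 : q - l ≤ vs p q l j := by omega
    have hv1 := vs_S h4
    have hF1 := Fs_S h4
    have h3' : vs p q l j - (q - l) = n := by omega
    rw [h3'] at hv1
    have h5 := row_S h hk hKa hτ h4
    rw [h3'] at h5
    have h6 : ((d' + (a + b - K) : ℕ) : ZMod p) = ((d : ℕ) : ZMod p) := by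
      have := hS.hW
      push_cast at *
      linear_combination this - hd' - h5
    have h7 := nat_near h6 (by omega) (by omega)
    refine ⟨d', ?_, hd1', hda', by omega, ?_, ?_⟩
    · rw [hF1, Nat.succ_mul]
      omega
    · rw [hv1]
      exact hd'
    · refine ⟨_, hDD, ?_⟩
      rw [hv1]
      exact hR2

/-- there is a step where the line enters a box through its bottom -/
theorem stop (h : LS p q a b c z i0 ρ θ δ l k) (h2a : 2 * a < p) (h2b : 2 * b < p)
    (hK : KEm p q a b ρ θ l) (hba : b ≤ a) {K : ℕ} (hk : k = -(K : ℤ)) (hKb : b + 1 ≤ K)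
    (hKa : K < a) (hql : q < p + l) (hτ : (q : ZMod p) * ρ = -(a : ZMod p)) {t : ℕ}
    (ht : t + 1 ≤ b)
    (hE : Ext q a b z (i0 + ((p - 1 : ℕ) : ZMod p) * ρ + ((a + 1 + t : ℕ) : ZMod p))
      (bx q c z (i0 + ((p - 1 : ℕ) : ZMod p) * ρ) + (p : ZMod (p * q)))
      (sc q z (i0 + ((p - 1 : ℕ) : ZMod p) * ρ) + a * q))
    (hno : ∀ X, rp p q X = 0 →
      LA q a b z (i0 + ((p - 1 : ℕ) : ZMod p) * ρ + ((a + 1 + t : ℕ) : ZMod p)) X ≠
      LA q a b z (i0 + ((p - 1 : ℕ) : ZMod p) * ρ + ((a + 1 + t : ℕ) : ZMod p))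
        (bx q c z (i0 + ((p - 1 : ℕ) : ZMod p) * ρ) + (p : ZMod (p * q))) + 2) :
    ∃ J d : ℕ, 1 ≤ J ∧ St q a b c z i0 ρ l K t J d ∧ d ≤ b ∧
      (∀ i : ℕ, 1 ≤ i → i < J → ∃ d', St q a b c z i0 ρ l K t i d' ∧ b + 1 ≤ d') ∧
      J * b + d ≤ a - K + 1 + t := by
  obtain ⟨haq, hbq, habq, h2a', h2b'⟩ := lt_mul_of h.hP
  have hc := h.hB.hc
  have hl := h.hl
  have hpq := h.hpq
  have ha := h.hP.ha
  have hb := h.hP.hb
  have hab := h.hP.hab
  have hq1 := h.hP.hq
  have hT := tie1 h (n := p - 1) (by omega) (by omega) hk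
  have hKq : (a - K) * q + K * q = a * q := by
    rw [← Nat.add_mul]
    congr 1
    omega
  have ej : ∀ j : ℕ, 2 * c * j = 0 ∨ (c = 1 ∧ 2 * c * j = 2 * j) := by
    intro j
    rcases (by omega : c = 0 ∨ c = 1) with rfl | rfl
    · left
      ring
    · right
      exact ⟨rfl, by ring⟩
  -- the number of steps is small
  have hsmall : ∀ j d : ℕ, St q a b c z i0 ρ l K t j d → j + 1 < p := by
    intro j d hS
    obtain ⟨D, hD, hR⟩ := hS.hR
    have h1 := hR.bound h h2b hK hT hKa hE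
    by_contra hcon
    have h2 : j * (b * q) = j * b * q := by ring
    have h3 : j * (2 * q) ≤ j * (b * q) := Nat.mul_le_mul_left j (Nat.mul_le_mul_right q hb)
    have h4 : j * (2 * q) = 2 * (j * q) := by ring
    have h5 : (p - 1) * q ≤ j * q := Nat.mul_le_mul_right q (by omega)
    have h6 : (p - 1) * q = p * q - 1 * q := Nat.sub_mul _ _ _
    have h7 : (1 + t) * q ≤ b * q := Nat.mul_le_mul_right q (by omega)
    have h8 : j * 3 ≤ j * q := Nat.mul_le_mul_left j (by omega)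
    rcases ej j with h9 | ⟨h9, h10⟩ <;> omega
  by_contra hcon
  have key : ∀ n : ℕ, (∃ d, St q a b c z i0 ρ l K t (n + 1) d) ∧
      ∀ i : ℕ, 1 ≤ i → i < n + 1 → ∃ d', St q a b c z i0 ρ l K t i d' ∧ b + 1 ≤ d' := by
    intro n
    induction n with
    | zero =>
      exact ⟨⟨_, first h h2b hK hba hk hKb hKa.le hql hτ ht⟩, fun i h1 h2 => by omega⟩
    | succ n ih =>
      obtain ⟨⟨d, hd⟩, hi⟩ := ih
      have hbd : b + 1 ≤ d := by
        by_contra hbd
        apply hcon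
        refine ⟨n + 1, d, by omega, hd, by omega, hi, ?_⟩
        obtain ⟨D, hD, hR⟩ := hd.hR
        have hd1 := hd.h1
        rw [line_bx hc hq1 hd.hW hd1] at hR
        have e1 : 1 * q ≤ d * q := Nat.mul_le_mul_right q hd1
        have e2 : d * q ≤ b * q := Nat.mul_le_mul_right q (by omega)
        have e3 : d * q ≤ a * q := Nat.mul_le_mul_right q hd.h2
        have hR1 := hR.ext h h2b hK hd.hW (s := 1) le_rfl (by omega) (by omega)
          (by omega) (by omega)
        have h1 := hR1.bound h h2b hK hT hKa hE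
        have h2 := hsmall _ _ hd
        by_contra hcon2
        have h3 : (a - K + 1 + t + 1) * q ≤ ((n + 1) * b + d) * q :=
          Nat.mul_le_mul_right q (by omega)
        have h4 : (a - K + 1 + t + 1) * q = (a - K) * q + (1 + t) * q + q := by ring
        have h5 : ((n + 1) * b + d) * q = (n + 1) * b * q + d * q := by ring
        rcases ej (n + 1) with h9 | ⟨h9, h10⟩ <;> omega
      refine ⟨hd.step h h2a h2b hK hba hk hKb hKa.le hτ hE hno hbd, ?_⟩
      intro i h1 h2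
      rcases Nat.lt_or_ge i (n + 1) with h3 | h3
      · exact hi i h1 h3
      · have : i = n + 1 := by omega
        subst this
        exact ⟨d, hd, hbd⟩
  obtain ⟨⟨d, hd⟩, _⟩ := key p
  have := hsmall _ _ hd
  omega

end

end Helper55.KV
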